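import Pool.Agent.H886.SB.Ex

/-!
# Birationally liftable sections of curves over totally real number fields

`K` is a totally real number field, `F` the function field of a smooth curve `U` over `K`, `C` the
set of the local rings of the closed points of `U`, `Ω` an algebraic closure of `F`, and
`unramified F Ω C` the maximal extension of `F` in `Ω` that is unramified over `U` (so that its Galois
group over `F` is the fundamental group of `U`). `GalSection K F (unramified F Ω C) B` is the type of
the sections of `π₁(U) → Gal(B/K)` and `GalSection K F Ω B` that of the sections of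
`Gal(Ω/F) → Gal(B/K)`, where `B` is an algebraic closure of `K`.

Let the section `s` of `π₁(U)` have a lift `s'` to the absolute Galois group of `F`. By the theorem of
Koenigsmann, over each completion `K_v` the section `s'` is given by a point of the smooth
compactification (or a place `P` of `Ω` above it); for the real completions this is an easy
consequence of the theory of real closed fields. Both facts are proved in the imported files and used
in the proof.
-/

set_option autoImplicit false

namespace Pool.Agent.Results.MP_2f3286_ag.LiftableSectionsTotallyReal

open Polynomial IsDedekindDomain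
open Pool.Agent.TH954 (GalSection Plc)
open Pool.Agent.W620.SC (unramified)
open scoped NumberField

section defs

variable {K F Ω B : Type} [Field K] [Field F] [Field Ω] [Field B] [Algebra K F]
  [Algebra F Ω] [Algebra K Ω] [Algebra K B]

/-- `F` is a function field of one variable over `K` -/
def OneVariable (K F : Type) [Field K] [Field F] [Algebra K F] : Prop :=
  ∃ t : F, Transcendental K t ∧ Algebra.IsAlgebraic (IntermediateField.adjoin K {t}) F

/-- The local points of the section `s` over the extension `L` of `K`: the places `P` of `Ω` over `K`
with values in the algebraic closure `A` of `L` that give `s` over `L`, that is, turn `s g` into `σ`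
whenever `σ ∈ Gal(A/L)` and `g ∈ Gal(B/K)` are compatible on `B`. -/
def IsLocalPoint (s : GalSection K F Ω B) (L : Type) [Field L] [Algebra K L]
    (P : Plc K Ω (AlgebraicClosure L)) : Prop :=
  ∀ (σ : AlgebraicClosure L ≃ₐ[L] AlgebraicClosure L) (g : B ≃ₐ[K] B),
    (∀ z c, P.val (s.j z) c → P.val (s.j (g z)) (σ c)) →
    ∀ y c, P.val y c → P.val (s.s g y) (σ c)

/-- no local point of `s` over `L` is a pole of `f` -/
def NoPole (s : GalSection K F Ω B) (L : Type) [Field L] [Algebra K L] (f : F) : Prop :=
  ∀ P : Plc K Ω (AlgebraicClosure L), IsLocalPoint s L P → algebraMap F Ω f ∈ P.W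

/-- The local points of `s` are in contact with few poles of `f`: there is a positive `N` such that,
for almost all places `v` of the number field `K`, the order of the value `x ∈ K_v` of `f` at a local
point of `s` over `K_v` is not a negative multiple of `N`. For example, `x` is integral, or its order
is at least `1 - N`. -/
def FewPoles [NumberField K] (s : GalSection K F Ω B) (f : F) : Prop :=
  ∃ N : ℕ, 0 < N ∧ ∀ᶠ v : HeightOneSpectrum (𝓞 K) in Filter.cofinite,
    ∀ P : Plc K Ω (AlgebraicClosure (v.adicCompletion K)),
      IsLocalPoint s (v.adicCompletion K) P → ∀ x : v.adicCompletion K,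
        P.val (algebraMap F Ω f) (algebraMap _ _ x) →
        ∀ k : ℤ, 0 < k → Valued.v x ≠ WithZero.exp ((N : ℤ) * k)

/-- the section `s'` of `Gal(Ω/F) → Gal(B/K)` is a lift of the section `s` of `π₁(U)` -/
def IsLift {C : Set (ValuationSubring F)} [Algebra K (unramified F Ω C)]
    (s : GalSection K F (unramified F Ω C) B) (s' : GalSection K F Ω B) : Prop :=
  ∀ (g : B ≃ₐ[K] B) (y : unramified F Ω C), s'.s g (y : Ω) = (s.s g y : Ω)

end defs

/-- Let `U` be a smooth curve over a totally real number field `K`, and `s` a section of
`π₁(U) → Gal(B/K)` that lifts to a section `s'` of the absolute Galois group of the function field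
`F` of `U`. Let `f` be a non-constant function such that no local point of `s'` is a pole of `f`, over
no completion of `K`, and that the local points are in contact with few poles of `f` (for example,
`f` is regular on the affine curve `U`, and the local points lie in `U`, and are integral at almost
all places). Then `s` is the section of a rational point of `U` or a cuspidal section: it arises from
the local ring `O` of a rational point of the smooth compactification, at which `f` has a value
`ξ ∈ K`; `s'` arises from this point only; and `f` has the value `ξ` at all local points of `s'`. -/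
theorem result (K F Ω B : Type) [Field K] [NumberField K]
    (hK : ∀ v : NumberField.InfinitePlace K, v.IsReal) [Field F] [Field Ω] [Field B]
    [Algebra K F] [Algebra F Ω] [Algebra K Ω] [IsScalarTower K F Ω] [IsAlgClosure F Ω]
    [Algebra K B] [IsAlgClosure K B] (hF : OneVariable K F) (C : Set (ValuationSubring F))
    (s : GalSection K F (unramified F Ω C) B) (s' : GalSection K F Ω B) (hs : IsLift s s')
    (f : F) (hf : Transcendental K f)
    (finite : ∀ v : HeightOneSpectrum (𝓞 K), NoPole s' (v.adicCompletion K) f)
    (real : ∀ v : NumberField.InfinitePlace K, NoPole s' v.Completion f)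
    (few : FewPoles s' f) :
    ∃ (ξ : K) (O : ValuationSubring F), s.ArisesFrom O ∧
      O.valuation (f - algebraMap K F ξ) < 1 ∧
      (∀ O' : ValuationSubring F, s'.ArisesFrom O' ↔ O' = O) ∧
      ∀ (v : HeightOneSpectrum (𝓞 K)) (P : Plc K Ω (AlgebraicClosure (v.adicCompletion K))),
        IsLocalPoint s' (v.adicCompletion K) P →
        P.val (algebraMap F Ω f) (algebraMap (v.adicCompletion K) _ (algebraMap K _ ξ)) := by
  have hΩ1 : IsAlgClosed Ω := IsAlgClosure.isAlgClosed F
  obtain ⟨t, ht, hFt⟩ := hF
  have hFf := Pool.Agent.H886.Exp.alg_exchange ht hFt hf
  obtain ⟨N, hN, hfew⟩ := few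
  obtain ⟨ξ, h1, O, h2, h3⟩ := Pool.Agent.H886.SB.all_points s' f finite (by
    intro pl hpl X hX
    choose pr hpr using fun v : NumberField.InfinitePlace K =>
      Pool.Agent.H886.SB.exists_real_point s' (hK v)
    have hcv : ∀ v : NumberField.InfinitePlace K, CharZero v.Completion := fun v =>
      charZero_of_injective_algebraMap (algebraMap K v.Completion).injective
    choose r hr using fun v : NumberField.InfinitePlace K =>
      Pool.Agent.H886.SB.val_rational s' (pr v) (hpr v) (real v (pr v) (hpr v))
    exact Pool.Agent.H886.SB.bir_zero hK s' f hf hFf pl hpl X hX N hN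
      (hfew.mono fun v hv => hv (pl v) (hpl v) (X v) (hX v)) pr hpr r hr)
  exact ⟨ξ, O, Pool.Agent.Q33.BSec.arises_of_lift C s s' hs O ((h3 O).2 rfl), h2, h3, h1⟩

end Pool.Agent.Results.MP_2f3286_ag.LiftableSectionsTotallyReal
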