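import Pool.Agent.H889.LM.GeoC
import Pool.Graph.R_seed8.V11235.SL.Res
import Pool.Graph.R_seed8.V11235.SL.Uni

/-!
# Sections of the fundamental groups of open curves which are ramified at a place are cuspidal there, or come from a ramification point of the given covering of the line

Let `A` be a discrete valuation ring with finite residue field, whose field of fractions `k` has
characteristic zero, for instance the local ring of a number field at a prime ideal, or its completion.
Let `ℓ` be a prime number which is invertible in `A`.  Let `C` be a smooth projective curve over `k`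
with function field `F`, let `x ∈ F` be a function, transcendental over `k`, that is, a covering
`x : C → ℙ¹`, and let `f ∈ A[x]` be a polynomial with invertible leading coefficient and separable
reduction.  Let `U ⊆ C` be an open subcurve, proper or not, which is the inverse image under `x` of an
open subset of `ℙ¹` which contains all points different from infinity and from the zeros of `f`.
Assume that there is a finite covering `C' → C_k̄`, étale over `U`, such that the genus of `C'` is
positive, and such that `C' → ℙ¹` is a Galois covering whose group is any `ℓ`-group, abelian or not,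
branched only at infinity and at zeros of `f`.

Let `M = M_U` be the maximal pro-`ℓ` extension of `k̄ F` that is unramified over `U`, so that
`Gal(M/F)` is the geometrically pro-`ℓ` fundamental group of `U`, the quotient of `π₁(U)` by the kernel
of `π₁(U_k̄) → π₁(U_k̄)^(pro-ℓ)`.  The points of `C` outside of `U` are called cusps.

Let `V` be a valuation ring of `k̄` above `A`, with decomposition group `D_V ⊆ G_k` and inertia group
`I_V ⊆ D_V`.  The field `M` has exactly one valuation ring `O` over `V` and over the Gauss valuation of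
`k(x)`.  The image of `D_V` under a section `s` of `Gal(M/F) → G_k` is in the decomposition group of
`O`.  The section is called unramified at `V` if `s(I_V)` acts trivially on the residue field of `O`.

**Theorem.**  (1) Every section `s` of `Gal(M/F) → G_k` which is not unramified at `V` is at `V` the
section of a cusp or of a ramification point of `x`: there is exactly one valuation ring `W` of `M`
over `k` which is ramified in `M / k̄(x)`, such that `s(D_V)` is contained in the decomposition group of
`W`.  The point `P` of `C` below `W` is rational over the decomposition field of `V`.  If `P` is a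
cusp, then this says that `s` is cuspidal at `V`.  If `P ∈ U`, then `x` is ramified at `P`, and the
restriction of `s` to `D_V` is the one of the section of the rational point `P`: it is determined
by `W`.
(2) If the Gauss valuation of `k(x)` has a prolongation to `F` with a value group larger than that of
`k`, then the conclusion of (1) is true for all sections `s`.

So in the case (2), for instance over a number field, all sections of `π₁(U) → G_k` are at `V`, on the
geometrically pro-`ℓ` quotient, either cuspidal or sections of rational points of `U` over the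
henselisation, as predicted by the section conjecture; and if neither the cusps nor the ramification
points of `x` in `U` are rational over the decomposition field, then there are no sections.

Examples.
* `F = k(x)`, so `U ⊆ ℙ¹` is the complement of zeros of `f` and possibly of infinity.  Then the
  assumption on `C'` says that `U` is hyperbolic (for `ℓ^j ≥ 3` and at least two zeros of `f`, with
  infinity a cusp, take `y^(ℓ^j) = f(x)`; for `ℙ¹ ∖ {0, 1, ∞}` the curve `y^N = x (x - 1)`, or a Fermat
  curve).  By (1) the sections are unramified or cuspidal at every place `v ∤ ℓ` at which the cusps stay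
  distinct.
* `U : d y^N = f(x)`, `N = ℓ^j`, affine or not, and every open subset `U` of its projective model which
  is as above, with `v(d)` not divisible by `N`.  By (2) the sections are at `v` sections of points with
  `y = 0`, or of points at infinity, if these are rational over the decomposition field, and otherwise
  cuspidal; for the affine curves with `f(x) ≠ 0` all sections are cuspidal at `v`.
* Open subcurves of the Fermat curves `a X^N + b Y^N = c Z^N`, for instance the complements of the
  points with `XYZ = 0`, which are étale coverings of `ℙ¹ ∖ {0, 1, ∞}` and twists of one another.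
* Étale coverings of degree a power of `ℓ`, with geometric monodromy an `ℓ`-group, of all these curves.

The case of a projective curve `C = U` with (2) is `MP_896029_ag.EllGroupCoverings`; the new cases are
the ones with cusps and the ones of good reduction.  That ramified sections of hyperbolic curves of good
reduction with respect to a prime-to-`ℓ` place should be cuspidal is in the spirit of the weight
arguments of Nakamura for affine curves (Galois rigidity), see also Stix, On cuspidal sections of
algebraic fundamental groups; here the result is proved for the curves above, including curves with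
bad and potentially good reduction.

Proof.  Let `N` be a finite Galois `ℓ`-extension of `k̄(x)` inside `M` which contains the function
field of `C'` and is stable under the automorphisms of `M` over `k(x)`, and let `M_N` be the maximal
everywhere unramified pro-`ℓ` extension of `N`.  Then `M` is the union of the fields `M_N`, and the
section `s` induces a section of `Gal(M_N/k(x)) → G_k` over its image.  The local theorem for `M_N`,
which was proved for `MP_896029_ag.EllGroupCoverings` with weights (finiteness of the `ℓ`-primary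
torsion of the class group of the special fibre) and with the fixed points of automorphisms of
order `ℓ` on the tree of curves in `M_N`, gives exactly one valuation ring `W_N` of `M_N` with the
desired properties if `s(I_V)` does not act trivially on the residue field of the Gauss valuation of
`M_N`.  The generator `γ_N` of the image of `s(I_V)` there fixes `W_N`.  For `N ⊆ N'` the restriction of
`W_N'` to `M_N` is fixed by the restriction of `γ_N'`, which is nontrivial, so it is ramified, and
therefore equal to `W_N`.  So the union of the `W_N` is a valuation ring of `M`.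

Here the theorem is stated for an arbitrary extension `N ⊇ M` of `F` in an algebraic closure `Ω`
instead of `M`: this includes `N = M` and the field `N = F_U` with `Gal(F_U/F) = π₁(U)`.  The
fundamental group is described through valuations: `F_U` is the maximal extension of `F` inside `Ω`
which is unramified over the closed points of `U`, that is, over their local rings, which are valuation
rings of `F`.  Then `π₁(U) = Gal(F_U/F)`, and the map `π₁(U) → G_k` is the restriction of automorphisms
to the algebraic closure of `k` in `Ω`.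
-/

open Polynomial

namespace Pool.Agent.Results.MP_2f3286_ag.RamifiedSectionsOfOpenCurves

section definitions

variable (ℓ : ℕ) (k F Ω : Type) [Field k] [Field F] [Field Ω] [Algebra k F] [Algebra F Ω]
  [Algebra k Ω]

/-- The inertia group of the valuation ring `W` of `Ω`, as a subgroup of `Gal(Ω/F)`: the
automorphisms of `Ω` over `F` that map `W` onto itself and act as the identity on its residue
field. -/
noncomputable def inertia (W : ValuationSubring Ω) : Subgroup (Ω ≃ₐ[F] Ω) :=
  (W.inertiaSubgroup F).map (W.decompositionSubgroup F).subtype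

/-- `F_U`, for a set `U` of valuation rings of `F`: the elements of `Ω` fixed by the inertia groups
of all valuation rings `W` of `Ω` with `W ∩ F ∈ U`.  If `Ω` is an algebraic closure of a field `F`
of characteristic zero, this is the maximal extension of `F` in `Ω` unramified over `U`. -/
noncomputable def unramified (U : Set (ValuationSubring F)) : IntermediateField F Ω :=
  ⨅ W : {W : ValuationSubring Ω // W.comap (algebraMap F Ω) ∈ U},
    IntermediateField.fixedField (inertia F Ω W.1)

/-- `k̄ F`, the compositum of `F` and of the algebraic closure of `k` in `Ω`. -/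
noncomputable def geomField : IntermediateField F Ω :=
  IntermediateField.adjoin F (algebraicClosure k Ω : Set Ω)

variable {F} in
/-- `k̄(x)`, the subfield of `Ω` generated by `x` and by the algebraic closure of `k` in `Ω`. -/
noncomputable def lineField (x : F) : IntermediateField (algebraicClosure k Ω) Ω :=
  IntermediateField.adjoin (algebraicClosure k Ω) {algebraMap F Ω x}

/-- The algebraic extension `L` of `K` in `Ω` is unramified at the valuation rings of `Ω` in the set
`P` which contain `k`: every nonzero element of `L` has the same valuation as an element of `K`.  (If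
`K` is a function field of one variable over the algebraic closure of `k` and `k` has characteristic
zero, then this says that `L/K` is unramified over the corresponding points of the smooth projective
curve.) -/
def Unramified {k K Ω : Type} [Field k] [Field K] [Field Ω] [Algebra k Ω] [Algebra K Ω]
    (P : Set (ValuationSubring Ω)) (L : IntermediateField K Ω) : Prop :=
  ∀ W ∈ P, (∀ c : k, algebraMap k Ω c ∈ W) → ∀ z ∈ L, z ≠ 0 →
    ∃ t : K, t ≠ 0 ∧ z / algebraMap K Ω t ∈ W ∧ (z / algebraMap K Ω t)⁻¹ ∈ W

/-- `L/K` is a finite Galois extension whose degree is a power of `ℓ`. -/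
def FiniteProEll (ℓ : ℕ) {K Ω : Type} [Field K] [Field Ω] [Algebra K Ω]
    (L : IntermediateField K Ω) : Prop :=
  FiniteDimensional K L ∧ IsGalois K L ∧ ∃ m : ℕ, Module.finrank K L = ℓ ^ m

/-- The maximal pro-`ℓ` extension of `K` in `Ω` which is unramified at the valuation rings in `P`
over `k`: the compositum of the finite Galois extensions of `K` whose degree is a power of `ℓ` and
which are unramified at `P`. -/
noncomputable def maxProEll (ℓ : ℕ) (k K Ω : Type) [Field k] [Field K] [Field Ω] [Algebra k Ω]
    [Algebra K Ω] (P : Set (ValuationSubring Ω)) : IntermediateField K Ω :=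
  ⨆ L : {L : IntermediateField K Ω // FiniteProEll ℓ L ∧ Unramified (k := k) P L}, L.1

/-- `M_U`, the maximal pro-`ℓ` extension of `k̄ F` in `Ω` which is unramified over `U`, as an extension
of `F`. -/
noncomputable def proEllField (U : Set (ValuationSubring F)) : IntermediateField F Ω :=
  (maxProEll ℓ k (geomField k F Ω) Ω {W | W.comap (algebraMap F Ω) ∈ U}).restrictScalars F

/-- The map `τ : M → M` acts as `σ : K → K` on the elements that the fields `K` and `M` have in
common when they are regarded as subfields of `Ω` through `i` and `j`. -/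
def ActsAs {K M Ω : Type} [Field K] [Field M] [Field Ω] (i : K →+* Ω) (j : M →+* Ω) (σ : K → K)
    (τ : M → M) : Prop :=
  ∀ c z, j z = i c → j (τ z) = i (σ c)

/-- Let `k ⊆ K ⊆ Ω` and `F ⊆ N ⊆ Ω` be fields.  A splitting of `Gal(N/F) → Gal(K/k)`: a continuous
homomorphism `s` from `Gal(K/k)` to `Gal(N/F)` such that `s(σ)` acts as `σ` on the elements of
`K ∩ N`. -/
structure Splitting (K N : Type) [Field K] [Field N] [Algebra k K] [Algebra F N] [Algebra K Ω]
    [Algebra N Ω] where
  /-- the homomorphism `Gal(K/k) → Gal(N/F)` -/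
  toHom : (K ≃ₐ[k] K) →* (N ≃ₐ[F] N)
  cont : Continuous toHom
  compat : ∀ σ : K ≃ₐ[k] K, ActsAs (algebraMap K Ω) (algebraMap N Ω) σ (toHom σ)

end definitions

section places

/-- The valuation ring `W` of `N` contains `k`. -/
def ContainsConstants (k : Type) {F N : Type} [Field k] [Field F] [Field N] [Algebra k F]
    [Algebra F N] (W : ValuationSubring N) : Prop :=
  ∀ c : k, algebraMap F N (algebraMap k F c) ∈ W

/-- The extension `M` of `k̄(x)`, where `M ⊆ N ⊆ Ω`, is ramified at the valuation ring `W` of `N`:
there is an element `z ≠ 0` of `M` whose valuation is different from the valuations of all elements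
`t ≠ 0` of `k̄(x)`. -/
def RamifiedIn (k : Type) {F Ω N : Type} [Field k] [Field F] [Field Ω] [Field N]
    [Algebra F Ω] [Algebra k Ω] [Algebra N Ω] (M : IntermediateField F Ω) (x : F)
    (W : ValuationSubring N) : Prop :=
  ∃ z : N, algebraMap N Ω z ∈ M ∧ z ≠ 0 ∧
    ∀ t : N, algebraMap N Ω t ∈ lineField k Ω x → t ≠ 0 → ¬ (z / t ∈ W ∧ (z / t)⁻¹ ∈ W)

/-- The values at `W` of the functions in `F` without a pole there are in the decomposition field of
the valuation ring `V` of `K`: for every `z ∈ F ∩ W` there is a `c ∈ K`, fixed by all automorphisms of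
`K` over `k` which map `V` to itself, such that `z - c` is in the maximal ideal of `W`. -/
def LocallyRational (k F Ω : Type) {N K : Type} [Field k] [Field F] [Field N] [Field K] [Field Ω]
    [Algebra F Ω] [Algebra k K] [Algebra F N] [Algebra K Ω] [Algebra N Ω]
    (V : ValuationSubring K) (W : ValuationSubring N) : Prop :=
  ∀ z : F, algebraMap F N z ∈ W → ∃ c : K, (∀ σ : K ≃ₐ[k] K, (∀ c : K, σ c ∈ V ↔ c ∈ V) → σ c = c) ∧
    ∃ z' ∈ W.nonunits, algebraMap N Ω z' = algebraMap F Ω z - algebraMap K Ω c

/-- Let `D_V` be the decomposition group of the valuation ring `V` of `K` in `Gal(K/k)`.  The image of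
`D_V` under `s : Gal(K/k) → Gal(N/F)` in `Gal(M/F)`, where `M ⊆ N ⊆ Ω`, is contained in the
decomposition group of the valuation ring `W ∩ M`. -/
def LocallyIn {k F Ω K N : Type} [Field k] [Field F] [Field Ω] [Field K] [Field N]
    [Algebra k K] [Algebra F N] [Algebra F Ω] [Algebra K Ω] [Algebra N Ω]
    (V : ValuationSubring K) (s : Splitting k F Ω K N) (M : IntermediateField F Ω)
    (W : ValuationSubring N) : Prop :=
  ∀ σ : K ≃ₐ[k] K, (∀ c : K, σ c ∈ V ↔ c ∈ V) →
    ∀ z : N, algebraMap N Ω z ∈ M → (s.toHom σ z ∈ W ↔ z ∈ W)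

/-- The splittings `s` and `s'` of `Gal(N/F) → Gal(K/k)` agree on `M` for the elements of the
decomposition group of `V`. -/
def LocallyAgreeOn {k F Ω K N : Type} [Field k] [Field F] [Field Ω] [Field K] [Field N]
    [Algebra k K] [Algebra F N] [Algebra F Ω] [Algebra K Ω] [Algebra N Ω]
    (V : ValuationSubring K) (M : IntermediateField F Ω) (s s' : Splitting k F Ω K N) : Prop :=
  ∀ σ : K ≃ₐ[k] K, (∀ c : K, σ c ∈ V ↔ c ∈ V) →
    ∀ z : N, algebraMap N Ω z ∈ M → s.toHom σ z = s'.toHom σ z

/-- The restriction of `s` to `D_V` induces on `M ⊆ N` the section of exactly one cusp, or of exactly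
one point of `U` at which `x` is ramified: there is a valuation ring `W` of `N` over `k` at which
`M / k̄(x)` is ramified, with residues of the elements of `F` in the decomposition field of `V`, such
that the image of `D_V` in `Gal(M/F)` is contained in the decomposition group of `W ∩ M`; if `W` is
over a point of `U`, then all splittings with this property induce the same map from `D_V` to
`Gal(M/F)`; and `W ∩ M` is the only valuation ring of `M` over `k`, ramified over `k̄(x)`, with this
property. -/
def LocallyFromOnePoint {k F Ω K N : Type} [Field k] [Field F] [Field Ω] [Field K] [Field N]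
    [Algebra k F] [Algebra k K] [Algebra k Ω] [Algebra F N] [Algebra F Ω] [Algebra K Ω] [Algebra N Ω]
    (V : ValuationSubring K) (x : F) (U : Set (ValuationSubring F)) (s : Splitting k F Ω K N)
    (M : IntermediateField F Ω) : Prop :=
  ∃ W : ValuationSubring N,
    ContainsConstants (F := F) k W ∧ RamifiedIn k M x W ∧ LocallyRational k F Ω V W ∧
    LocallyIn V s M W ∧
    (W.comap (algebraMap F N) ∈ U →
      ∀ s' : Splitting k F Ω K N, LocallyIn V s' M W → LocallyAgreeOn V M s s') ∧
    ∀ W' : ValuationSubring N, ContainsConstants (F := F) k W' → RamifiedIn k M x W' →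
      LocallyIn V s M W' → ∀ z : N, algebraMap N Ω z ∈ M → (z ∈ W' ↔ z ∈ W)

/-- The valuation ring `O` of `N` lies over the valuation ring `V` of `K ⊆ Ω` and over the Gauss
valuation of `K(x)`: the values at `x` of the polynomials with coefficients in `V`, not all of them in
the maximal ideal, are units of `O`. -/
def GaussAbove {F Ω K N : Type} [Field F] [Field Ω] [Field K] [Field N] [Algebra F Ω] [Algebra K Ω]
    [Algebra N Ω] (V : ValuationSubring K) (x : F) (O : ValuationSubring N) : Prop :=
  (∀ (c : K) (z : N), algebraMap N Ω z = algebraMap K Ω c → (z ∈ O ↔ c ∈ V)) ∧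
  ∀ p : K[X], (∀ n, p.coeff n ∈ V) → (∃ n, p.coeff n ∉ V.nonunits) →
    ∀ z : N, algebraMap N Ω z = aeval (algebraMap F Ω x) p → z ∈ O ∧ z ∉ O.nonunits

/-- The splitting `s` is unramified at `V` on `M ⊆ N`: there is a valuation ring `O` of `N` over `V`
and the Gauss valuation such that for all `σ` in the inertia group of `V` the automorphism `s(σ)` acts
trivially on the residue field of `O ∩ M`; and `O ∩ M` is the only valuation ring of `M` over `V` and
the Gauss valuation. -/
def UnramifiedAt {k F Ω K N : Type} [Field k] [Field F] [Field Ω] [Field K] [Field N]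
    [Algebra k K] [Algebra F N] [Algebra F Ω] [Algebra K Ω] [Algebra N Ω]
    (V : ValuationSubring K) (x : F) (s : Splitting k F Ω K N) (M : IntermediateField F Ω) : Prop :=
  ∃ O : ValuationSubring N, GaussAbove (Ω := Ω) V x O ∧
    (∀ O' : ValuationSubring N, GaussAbove (Ω := Ω) V x O' →
      ∀ z : N, algebraMap N Ω z ∈ M → (z ∈ O' ↔ z ∈ O)) ∧
    ∀ σ : K ≃ₐ[k] K, (∀ c : K, σ c ∈ V ↔ c ∈ V) → (∀ c ∈ V, σ c - c ∈ V.nonunits) →
      ∀ z : N, algebraMap N Ω z ∈ M → z ∈ O → s.toHom σ z - z ∈ O.nonunits

end places

section curves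

/-- `F` is a finite extension of `k(x)`, where `x` is transcendental over `k`. -/
def IsCovering (k : Type) {F : Type} [Field k] [Field F] [Algebra k F] (x : F) : Prop :=
  Transcendental k x ∧ FiniteDimensional (IntermediateField.adjoin k {x}) F

/-- The leading coefficient of `f` is invertible and the reduction of `f` is separable. -/
def GoodPolynomial {A : Type} [CommRing A] [IsLocalRing A] (f : A[X]) : Prop :=
  IsUnit f.leadingCoeff ∧ (f.map (IsLocalRing.residue A)).Separable

/-- `U` is a set of valuation rings of `F` over `k` which is the inverse image of a set of valuation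
rings of `k(x)`, and which contains the nontrivial valuation rings over `k` which contain `x` and at
which `f(x)` is a unit.  (If the trivial valuation ring is not in `U`, then `U` is the set of the
closed points of the inverse image under `x` of an open subset of `ℙ¹` which contains all points
different from infinity and the zeros of `f`.  It makes no difference in the theorem whether the
trivial valuation ring is in `U`.) -/
structure OpenSubcurve {k F : Type} [Field k] [Field F] [Algebra k F] (f : k[X]) (x : F)
    (U : Set (ValuationSubring F)) : Prop where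
  constants : ∀ O ∈ U, ∀ c : k, algebraMap k F c ∈ O
  saturated : ∀ O ∈ U, ∀ O' : ValuationSubring F, (∀ c : k, algebraMap k F c ∈ O') →
    (∀ r ∈ IntermediateField.adjoin k {x}, r ∈ O' ↔ r ∈ O) → O' ∈ U
  contains : ∀ O : ValuationSubring F, O ≠ ⊤ → (∀ c : k, algebraMap k F c ∈ O) → x ∈ O →
    aeval x f ∉ O.nonunits → O ∈ U

/-- `L`, an extension of `k̄(x)` in `Ω`, is Galois of degree a power of `ℓ` over `k̄(x)`, it contains
`F`, it is unramified over `k̄ F` at the points of `U`, it is unramified over `k̄(x)` outside of
infinity and of the zeros of the polynomial `f`, and its genus is positive: there is a nontrivial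
everywhere unramified extension of degree a power of `ℓ`. -/
structure EllGroupCovering (ℓ : ℕ) {k F Ω : Type} [Field k] [Field F] [Field Ω] [Algebra k F]
    [Algebra F Ω] [Algebra k Ω] (f : k[X]) (x : F) (U : Set (ValuationSubring F))
    (L : IntermediateField (lineField k Ω x) Ω) : Prop where
  galois : FiniteProEll ℓ L
  contains : ∀ z : F, algebraMap F Ω z ∈ L
  etale : ∀ W : ValuationSubring Ω, (∀ c : k, algebraMap k Ω c ∈ W) →
    W.comap (algebraMap F Ω) ∈ U → ∀ z ∈ L, z ≠ 0 →
      ∃ t ∈ geomField k F Ω, t ≠ 0 ∧ z / t ∈ W ∧ (z / t)⁻¹ ∈ W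
  branch : ∀ W : ValuationSubring Ω, (∀ c : k, algebraMap k Ω c ∈ W) → algebraMap F Ω x ∈ W →
    algebraMap F Ω (aeval x f) ∉ W.nonunits → ∀ z ∈ L, z ≠ 0 →
      ∃ t ∈ lineField k Ω x, t ≠ 0 ∧ z / t ∈ W ∧ (z / t)⁻¹ ∈ W
  genus : ∃ z ∈ maxProEll ℓ k L Ω Set.univ, z ∉ L

/-- `O` is a prolongation to `F` of the Gauss valuation ring of `k(x)`: if a polynomial with
coefficients in `A` has an invertible coefficient, then its value at `x` is a unit of `O`, and the
maximal ideal of `A` is contained in the one of `O`. -/
def GaussProlongation (A k : Type) {F : Type} [CommRing A] [IsLocalRing A] [Field k] [Field F]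
    [Algebra A k] [Algebra k F] (x : F) (O : ValuationSubring F) : Prop :=
  (∀ p : A[X], (∃ n, IsUnit (p.coeff n)) →
    aeval x (p.map (algebraMap A k)) ∈ O ∧ (aeval x (p.map (algebraMap A k)))⁻¹ ∈ O) ∧
  ∀ a ∈ IsLocalRing.maximalIdeal A, algebraMap k F (algebraMap A k a) ∈ O.nonunits

/-- Bad reduction: there is a prolongation `O` of the Gauss valuation of `k(x)` to `F`, and an element
`z ≠ 0` of `F` which does not have the same value as an element of `k`. -/
def GaussRamified (A k : Type) {F : Type} [CommRing A] [IsLocalRing A] [Field k] [Field F]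
    [Algebra A k] [Algebra k F] (x : F) : Prop :=
  ∃ O : ValuationSubring F, GaussProlongation A k x O ∧
    ∃ z : F, z ≠ 0 ∧ ∀ c : k, c ≠ 0 → ¬ (z / algebraMap k F c ∈ O ∧ (z / algebraMap k F c)⁻¹ ∈ O)

/-- The valuation ring `V` of the extension `K` of the field of fractions `k` of `A` lies above `A`. -/
def LiesAbove (A k : Type) {K : Type} [CommRing A] [IsLocalRing A] [Field k] [Algebra A k] [Field K]
    [Algebra k K] (V : ValuationSubring K) : Prop :=
  (∀ c : A, algebraMap k K (algebraMap A k c) ∈ V) ∧
    ∀ c ∈ IsLocalRing.maximalIdeal A, algebraMap k K (algebraMap A k c) ∈ V.nonunits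

end curves

lemma iSup_congr_prop {α : Type} [CompleteLattice α] {P Q : α → Prop} (h : ∀ L, P L ↔ Q L) :
    (⨆ L : {L // P L}, L.1) = ⨆ L : {L // Q L}, L.1 := by
  have h1 : P = Q := funext fun L => propext (h L)
  subst h1
  rfl

lemma proEll_eq (ℓ : ℕ) (k F Ω : Type) [Field k] [Field F] [Field Ω] [Algebra k F] [Algebra F Ω]
    [Algebra k Ω] (U : Set (ValuationSubring F)) :
    proEllField ℓ k F Ω U = Pool.Agent.H889.LM.proU ℓ k F Ω U := by
  unfold proEllField Pool.Agent.H889.LM.proU maxProEll Pool.Agent.H889.LM.maxU
  congr 1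
  refine iSup_congr_prop fun L => ?_
  constructor
  · rintro ⟨⟨h1, h2, h3⟩, h4⟩
    refine ⟨⟨h1, h2, h3⟩, fun W hW hPW z hz hz0 => ?_⟩
    by_cases htop : W = ⊤
    · subst htop
      exact ⟨1, one_ne_zero, div_ne_zero hz0 ((_root_.map_ne_zero _).2 one_ne_zero), trivial,
        trivial⟩
    · obtain ⟨t, ht, h5, h6⟩ := h4 W (hPW htop) hW z hz hz0
      exact ⟨t, ht, div_ne_zero hz0 ((_root_.map_ne_zero _).2 ht), h5, h6⟩
  · rintro ⟨⟨h1, h2, h3⟩, h4⟩
    refine ⟨⟨h1, h2, h3⟩, fun W hPW hW z hz hz0 => ?_⟩
    obtain ⟨t, ht, -, h5, h6⟩ := h4 W hW (fun _ => hPW) z hz hz0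
    exact ⟨t, ht, h5, h6⟩

lemma maxPro_eq (ℓ : ℕ) (k K Ω : Type) [Field k] [Field K] [Field Ω] [Algebra k Ω]
    [Algebra K Ω] : maxProEll ℓ k K Ω Set.univ = Pool.Agent.Y157.PS.maxPro ℓ k K Ω := by
  unfold maxProEll Pool.Agent.Y157.PS.maxPro
  refine iSup_congr_prop fun L => ?_
  constructor
  · rintro ⟨⟨h1, h2, h3⟩, h4⟩
    refine ⟨⟨h1, h2, h3⟩, fun W hW z hz hz0 => ?_⟩
    obtain ⟨t, ht, h5, h6⟩ := h4 W trivial hW z hz hz0
    exact ⟨t, ht, div_ne_zero hz0 ((_root_.map_ne_zero _).2 ht), h5, h6⟩
  · rintro ⟨⟨h1, h2, h3⟩, h4⟩
    refine ⟨⟨h1, h2, h3⟩, fun W _ hW z hz hz0 => ?_⟩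
    obtain ⟨t, ht, -, h5, h6⟩ := h4 W hW z hz hz0
    exact ⟨t, ht, h5, h6⟩

section proof

variable {ℓ : ℕ} {k F Ω : Type} [Field k] [CharZero k] [Field F] [Field Ω] [Algebra k F]
  [Algebra F Ω] [Algebra k Ω] [IsScalarTower k F Ω] [IsAlgClosure F Ω]
  {U : Set (ValuationSubring F)}

omit [CharZero k] [Algebra k F] [IsScalarTower k F Ω] [IsAlgClosure F Ω] in
lemma mem_proEll (c : algebraicClosure k Ω) : (c : Ω) ∈ proEllField ℓ k F Ω U := by
  have h1 : (c : Ω) ∈ geomField k F Ω := IntermediateField.subset_adjoin _ _ c.2
  exact (maxProEll ℓ k (geomField k F Ω) Ω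
    {W | W.comap (algebraMap F Ω) ∈ U}).algebraMap_mem ⟨(c : Ω), h1⟩

/-- the algebraic closure of `k` inside `N` -/
def iota (N : IntermediateField F Ω) (hN : proEllField ℓ k F Ω U ≤ N) :
    algebraicClosure k Ω →+* N where
  toFun c := ⟨(c : Ω), hN (mem_proEll c)⟩
  map_one' := Subtype.ext rfl
  map_mul' := fun _ _ => Subtype.ext rfl
  map_zero' := Subtype.ext rfl
  map_add' := fun _ _ => Subtype.ext rfl

omit [CharZero k] in
lemma iota_mem (N : IntermediateField F Ω) (hN : proEllField ℓ k F Ω U ≤ N)
    (W : ValuationSubring N)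
    (h1 : ∀ c : k, algebraMap F N (algebraMap k F c) ∈ W) (c : algebraicClosure k Ω) :
    iota N hN c ∈ W := by
  have hcl : IsAlgClosed Ω := IsAlgClosure.isAlgClosed F
  have hι : ∀ c : k, iota N hN (algebraMap k (algebraicClosure k Ω) c) =
      algebraMap F N (algebraMap k F c) := by
    intro c
    apply Subtype.ext
    change algebraMap k Ω c = algebraMap F Ω (algebraMap k F c)
    exact IsScalarTower.algebraMap_apply k F Ω c
  have hacl : IsAlgClosure k (algebraicClosure k Ω) := inferInstance
  have hc : IsIntegral k c := (hacl.isAlgebraic.isAlgebraic c).isIntegral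
  obtain ⟨p, hp, hpc⟩ := hc
  let g : k →+* W :=
    { toFun := fun a => ⟨algebraMap F N (algebraMap k F a), h1 a⟩
      map_one' := Subtype.ext (by simp)
      map_mul' := fun a b => Subtype.ext (by simp)
      map_zero' := Subtype.ext (by simp)
      map_add' := fun a b => Subtype.ext (by simp) }
  have hint : IsIntegral W (iota N hN c) := by
    refine ⟨p.map g, hp.map g, ?_⟩
    rw [eval₂_map]
    have h2 : (algebraMap W N).comp g = (iota N hN).comp (algebraMap k (algebraicClosure k Ω)) := by
      ext1 a
      exact (hι a).symm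
    rw [h2, ← hom_eval₂, hpc, map_zero]
  obtain ⟨w, hw⟩ := (IsIntegrallyClosed.isIntegral_iff (R := W)).1 hint
  rw [← hw]
  exact w.2

/-- there is only one section for every point of `U`, locally -/
lemma unique_section (N : IntermediateField F Ω) (hN : proEllField ℓ k F Ω U ≤ N)
    (s s' : Splitting k F Ω (algebraicClosure k Ω) N) (W : ValuationSubring N)
    (hWU : W.comap (algebraMap F N) ∈ U)
    (h1 : ∀ c : k, algebraMap F N (algebraMap k F c) ∈ W)
    (h3 : ∀ z ∈ W, ∃ c, z - iota N hN c ∈ W.nonunits)
    (σ : algebraicClosure k Ω ≃ₐ[k] algebraicClosure k Ω)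
    (h4 : ∀ z : N, (z : Ω) ∈ proEllField ℓ k F Ω U → (s.toHom σ z ∈ W ↔ z ∈ W))
    (h4' : ∀ z : N, (z : Ω) ∈ proEllField ℓ k F Ω U → (s'.toHom σ z ∈ W ↔ z ∈ W))
    (z : N) (hz : (z : Ω) ∈ proEllField ℓ k F Ω U) : s.toHom σ z = s'.toHom σ z := by
  have hcl : IsAlgClosed Ω := IsAlgClosure.isAlgClosed F
  have halg : Algebra.IsAlgebraic F Ω := IsAlgClosure.isAlgebraic
  have hc0 : CharZero Ω := charZero_of_injective_algebraMap (algebraMap k Ω).injective
  let τ : N ≃ₐ[F] N := (s.toHom σ).trans (s'.toHom σ).symm
  have hτ : ∀ z : N, s'.toHom σ (τ z) = s.toHom σ z := fun z =>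
    (s'.toHom σ).apply_symm_apply _
  have hfixc : ∀ c : algebraicClosure k Ω, τ (iota N hN c) = iota N hN c := by
    intro c
    apply (s'.toHom σ).injective
    rw [hτ]
    apply Subtype.ext
    exact (s.compat σ c (iota N hN c) rfl).trans (s'.compat σ c (iota N hN c) rfl).symm
  have hgeo : geomField k F Ω ≤ Pool.Agent.V11235.SL.fixF N τ := by
    refine IntermediateField.adjoin_le_iff.2 fun c hc => ?_
    exact ⟨hN (mem_proEll ⟨c, hc⟩), hfixc ⟨c, hc⟩⟩
  have hL : ∀ L : {L : IntermediateField (geomField k F Ω) Ω // FiniteProEll ℓ L ∧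
      Unramified (k := k) {W | W.comap (algebraMap F Ω) ∈ U} L},
      L.1 ≤ IntermediateField.extendScalars hgeo := by
    rintro ⟨L, ⟨hfin, hgal, hcard⟩, hun⟩
    intro z hz
    change z ∈ L at hz
    have hLM : ∀ z ∈ L, z ∈ proEllField ℓ k F Ω U := by
      intro z hz
      have h5 : L ≤ maxProEll ℓ k (geomField k F Ω) Ω {W | W.comap (algebraMap F Ω) ∈ U} := by
        refine le_iSup (fun L : {L : IntermediateField (geomField k F Ω) Ω // FiniteProEll ℓ L ∧
          Unramified (k := k) {W | W.comap (algebraMap F Ω) ∈ U} L} => L.1)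
          ⟨L, ⟨hfin, hgal, hcard⟩, hun⟩
      exact h5 hz
    have hLN : ∀ z ∈ L, z ∈ N := fun z hz => hN (hLM z hz)
    obtain ⟨V, hV⟩ := Pool.Agent.Y157.PS.a_extv N Ω W
    have hVW : ∀ w : N, (w : Ω) ∈ V ↔ w ∈ W := by
      intro w
      rw [← hV]
      rfl
    have hVU : V.comap (algebraMap F Ω) ∈ U := by
      have h5 : V.comap (algebraMap F Ω) = W.comap (algebraMap F N) := by
        rw [← hV]
        rfl
      rw [h5]
      exact hWU
    have hkV : ∀ c : k, algebraMap k Ω c ∈ V := by
      intro c
      have h5 := (hVW (algebraMap F N (algebraMap k F c))).2 (h1 c)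
      rw [IsScalarTower.algebraMap_apply k F Ω c]
      exact h5
    refine ⟨hLN z hz, ?_⟩
    refine Pool.Agent.V11235.SL.triv (geomField k F Ω) N L hLN W (iota N hN) (iota_mem N hN W h1)
      (fun c => IntermediateField.subset_adjoin _ _ c.2) τ (fun w hw => (hgeo hw).2)
      h3 ?_ ?_ ⟨z, hLN z hz⟩ hz
    · intro w hw hw0
      have hw0' : (w : Ω) ≠ 0 := fun h => hw0 (Subtype.ext h)
      obtain ⟨t, ht0, h5, h6⟩ := hun V hVU hkV w hw hw0'
      refine ⟨⟨(t : Ω), hLN _ (L.algebraMap_mem t)⟩, t.2, fun h => ht0 (Subtype.ext ?_),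
        (hVW _).1 h5, (hVW _).1 h6⟩
      exact congrArg (fun r : N => (r : Ω)) h
    · intro w hw hw'
      rw [← h4 w (hLM _ hw), ← h4' (τ w) (hLM _ hw'), hτ]
  have h5 : (z : Ω) ∈ IntermediateField.extendScalars hgeo := (iSup_le hL) hz
  obtain ⟨h6, h7⟩ := (IntermediateField.mem_extendScalars hgeo).1 h5
  have h8 : τ z = z := h7
  rw [← hτ z, h8]

omit [CharZero k] in
/-- residues of the elements of `N` are in the algebraic closure of `k` -/
lemma exists_res' (N : IntermediateField F Ω) (hN : proEllField ℓ k F Ω U ≤ N)
    (W : ValuationSubring N) (h1 : ∀ c : k, algebraMap F N (algebraMap k F c) ∈ W)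
    (h3 : ∀ z : N, (z : Ω) ∈ proEllField ℓ k F Ω U → z ∈ W → ∃ c : algebraicClosure k Ω,
      ∃ z' ∈ W.nonunits, (z' : Ω) = (z : Ω) - c) (z : N) (hz : z ∈ W) :
    ∃ c, z - iota N hN c ∈ W.nonunits := by
  have hcl : IsAlgClosed Ω := IsAlgClosure.isAlgClosed F
  have halg : Algebra.IsAlgebraic F Ω := IsAlgClosure.isAlgebraic
  have hacl : IsAlgClosure k (algebraicClosure k Ω) := inferInstance
  have hclK : IsAlgClosed (algebraicClosure k Ω) := hacl.isAlgClosed
  let M := proEllField ℓ k F Ω U
  let _ : Algebra M N := ((IntermediateField.inclusion hN : M →ₐ[F] N) : M →+* N).toAlgebra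
  let _ : Algebra (algebraicClosure k Ω) M :=
    (iota (ℓ := ℓ) (k := k) (U := U) M le_rfl : algebraicClosure k Ω →+* M).toAlgebra
  have hzalg : IsAlgebraic M z := by
    have h2 : IsAlgebraic F z := by
      have h2 : IsAlgebraic F (z : Ω) := halg.isAlgebraic _
      exact (isAlgebraic_algebraMap_iff (R := F) (S := N) (A := Ω) (algebraMap N Ω).injective).1 h2
    have : IsScalarTower F M N := IsScalarTower.of_algebraMap_eq fun r => rfl
    exact h2.tower_top M
  refine Pool.Agent.V11235.SL.residue_alg (k := algebraicClosure k Ω) (F := M) (iota N hN)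
    (fun c => rfl) W (iota_mem N hN W h1) ?_ z hzalg hz
  intro w hw
  obtain ⟨c, z', hz', hc⟩ := h3 (algebraMap M N w) w.2 hw
  refine ⟨c, ?_⟩
  have h5 : algebraMap M N (w - algebraMap (algebraicClosure k Ω) M c) = z' :=
    Subtype.ext hc.symm
  rw [h5]
  exact hz'

end proof

/-- the two forms of the definition of ramification -/
lemma ramified_iff {ℓ : ℕ} {k F Ω : Type} [Field k] [Field F] [Field Ω] [Algebra k F]
    [Algebra F Ω] [Algebra k Ω] [IsScalarTower k F Ω] (U : Set (ValuationSubring F)) (x : F)
    (N : IntermediateField F Ω) (W : ValuationSubring N) :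
    RamifiedIn k (Pool.Agent.H889.LM.proU ℓ k F Ω U) x W ↔
      Pool.Agent.H889.LM.RamU ℓ k U x N W := by
  constructor
  · rintro ⟨z, hz, hz0, hzt⟩
    exact ⟨z, hz, hz0, fun t ht ht0 h => hzt t ht ht0 h.2⟩
  · rintro ⟨z, hz, hz0, hzt⟩
    exact ⟨z, hz, hz0, fun t ht ht0 h => hzt t ht ht0 ⟨div_ne_zero hz0 ht0, h.1, h.2⟩⟩

/-- the two forms of the definition of the Gauss valuation -/
lemma gauss_iff {k F Ω : Type} [Field k] [Field F] [Field Ω] [Algebra k F]
    [Algebra F Ω] [Algebra k Ω] (V : ValuationSubring (algebraicClosure k Ω)) (x : F)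
    (N : IntermediateField F Ω) (O : ValuationSubring N) :
    GaussAbove (Ω := Ω) V x O ↔ Pool.Agent.H889.LM.GaussP V x N O := by
  constructor
  · rintro ⟨h1, h2⟩
    refine ⟨h1, fun p hp ⟨n, hn⟩ z hz => ?_⟩
    have hn' : p.coeff n ∉ V.nonunits := by
      intro h
      rcases (Pool.Agent.Y157.PS.nonunits_iff.1 h).2 with h5 | h5
      · exact hn.1 h5
      · exact h5 hn.2.2
    obtain ⟨h3, h4⟩ := h2 p hp ⟨n, hn'⟩ z hz
    exact Pool.Agent.Y157.PS.isU_of_not_nonunit h3 h4
  · rintro ⟨h1, h2⟩
    refine ⟨h1, fun p hp ⟨n, hn⟩ z hz => ?_⟩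
    have h3 := h2 p hp ⟨n, Pool.Agent.Y157.PS.isU_of_not_nonunit (hp n) hn⟩ z hz
    refine ⟨h3.2.1, fun h => ?_⟩
    rcases (Pool.Agent.Y157.PS.nonunits_iff.1 h).2 with h5 | h5
    · exact h3.1 h5
    · exact h5 h3.2.2

/-- Let `A` be a discrete valuation ring with finite residue field and with field of fractions `k` of
characteristic zero, `ℓ` a prime number invertible in `A`, `F` the function field of a curve `C` over
`k`, `Ω` an algebraic closure of `F`, and `x ∈ F` a function which is transcendental over `k`.  Let
`f ∈ A[x]` be a polynomial with invertible leading coefficient and separable reduction, and let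
`U ⊆ C` be open, the inverse image under `x` of an open subset of the line which contains all points
different from infinity and from the zeros of `f`.  Assume that there is a finite covering `C' → C_k̄`
which is étale over `U`, such that `C' → ℙ¹` is Galois with an `ℓ`-group and branched only at infinity
and at zeros of `f`, and such that the genus of `C'` is positive.  Let `M = proEllField ℓ k F Ω U`, the
maximal pro-`ℓ` extension of `k̄ F` unramified over `U`; it is contained in `F_U`.  Let `N ⊇ M` be an
extension of `F` in `Ω`, for instance `N = M` or `N = F_U`, let `s` be a section of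
`Gal(N/F) → G_k`, and let `V` be a valuation ring of `k̄` above `A`.  Then `s` is unramified at `V`, or
it is at `V` the section of exactly one cusp or ramification point of `x`; and if the Gauss valuation
of `k(x)` has a prolongation to `F` with a value group larger than that of `k`, then the second
alternative is true. -/
theorem result (A k F Ω : Type) [CommRing A] [IsDomain A] [IsDiscreteValuationRing A]
    [Finite (IsLocalRing.ResidueField A)] [Field k] [CharZero k] [Algebra A k] [IsFractionRing A k]
    [Field F] [Field Ω] [Algebra k F] [Algebra F Ω] [Algebra k Ω] [IsScalarTower k F Ω]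
    [IsAlgClosure F Ω] (ℓ : ℕ) [Fact ℓ.Prime] (hℓ : IsUnit (ℓ : A)) (x : F)
    (hx : IsCovering k x) (f : A[X]) (hf : GoodPolynomial f) (U : Set (ValuationSubring F))
    (hU : OpenSubcurve (f.map (algebraMap A k)) x U)
    (L : IntermediateField (lineField k Ω x) Ω)
    (hL : EllGroupCovering ℓ (f.map (algebraMap A k)) x U L) :
    proEllField ℓ k F Ω U ≤ unramified F Ω U ∧
    ∀ N : IntermediateField F Ω, proEllField ℓ k F Ω U ≤ N →
      ∀ s : Splitting k F Ω (algebraicClosure k Ω) N,
        ∀ V : ValuationSubring (algebraicClosure k Ω), LiesAbove A k V →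
          (UnramifiedAt V x s (proEllField ℓ k F Ω U) ∨
            LocallyFromOnePoint V x U s (proEllField ℓ k F Ω U)) ∧
          (GaussRamified A k x → LocallyFromOnePoint V x U s (proEllField ℓ k F Ω U)) := by
  obtain ⟨hxt, hfin⟩ := hx
  obtain ⟨⟨hL1, hL2, hL3⟩, hFL, hLu, hLf, hbig⟩ := hL
  have hcl : IsAlgClosed Ω := IsAlgClosure.isAlgClosed F
  have halg : Algebra.IsAlgebraic F Ω := IsAlgClosure.isAlgebraic
  have heval : ∀ p : A[X], p.eval₂ ((algebraMap k F).comp (algebraMap A k)) x =
      aeval x (p.map (algebraMap A k)) := by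
    intro p
    rw [aeval_def, eval₂_map]
  have hne : ∀ p : A[X], (∃ n, IsUnit (p.coeff n)) → aeval x (p.map (algebraMap A k)) ≠ 0 := by
    rintro p ⟨n, hn⟩ h0
    have h1 := (transcendental_iff.1 hxt) _ h0
    have h2 : algebraMap A k (p.coeff n) = 0 := by rw [← coeff_map, h1, coeff_zero]
    rw [map_eq_zero_iff _ (IsFractionRing.injective A k)] at h2
    rw [h2] at hn
    exact not_isUnit_zero hn
  have hpro := proEll_eq ℓ k F Ω U
  have hlev : Pool.Agent.Y157.PS.Lev ℓ L := ⟨hL1, hL2, hL3⟩
  have hLu' : ∀ W : ValuationSubring Ω, (∀ c : k, algebraMap k Ω c ∈ W) →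
      W.comap (algebraMap F Ω) ∈ U → ∀ z ∈ L, z ≠ 0 →
      ∃ t ∈ Pool.Agent.Y157.PS.geomF k F Ω, t ≠ 0 ∧ Pool.Agent.Y157.PS.IsU W (z / t) :=
    fun W hW hWU z hz hz0 => by
      obtain ⟨t, ht, ht0, h5, h6⟩ := hLu W hW hWU z hz hz0
      exact ⟨t, ht, ht0, div_ne_zero hz0 ht0, h5, h6⟩
  have hLf' : ∀ W : ValuationSubring Ω, (∀ c : k, algebraMap k Ω c ∈ W) → algebraMap F Ω x ∈ W →
      algebraMap F Ω (aeval x (f.map (algebraMap A k))) ∉ W.nonunits → ∀ z ∈ L, z ≠ 0 →
        ∃ t ∈ Pool.Agent.H889.PS.ratL (Ω := Ω) k x, t ≠ 0 ∧
          Pool.Agent.Y157.PS.IsU W (z / t) :=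
    fun W hW hxW hfW z hz hz0 => by
      obtain ⟨t, ht, ht0, h5, h6⟩ := hLf W hW hxW hfW z hz hz0
      exact ⟨t, ht, ht0, div_ne_zero hz0 ht0, h5, h6⟩
  have hbig' : ∃ z ∈ Pool.Agent.Y157.PS.maxPro ℓ k L Ω, z ∉ L := by
    rw [maxPro_eq] at hbig
    exact hbig
  refine ⟨?_, fun N hN s V hV => ?_⟩
  · rw [hpro]
    exact Pool.Agent.H889.LM.proU_le ℓ U hU.constants
  · have hN' : Pool.Agent.H889.LM.proU ℓ k F Ω U ≤ N := by rw [← hpro]; exact hN
    obtain ⟨O, hO, hOun, hdich, hram⟩ := Pool.Agent.H889.LM.numU V hV.1 hV.2 hℓ f hf.1 hf.2 x hxt U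
      hU.constants hU.saturated hU.contains L hlev hFL hLu' hLf' hbig' N hN' s.toHom s.cont
      (fun σ c z hz => s.compat σ c z hz)
    have hBB : Pool.Agent.H889.LM.BB ℓ V x U N s.toHom →
        LocallyFromOnePoint V x U s (proEllField ℓ k F Ω U) := by
      rintro ⟨W, ⟨⟨h1, h2, h3, h3'⟩, h4⟩, hun⟩
      have h4' : LocallyIn V s (proEllField ℓ k F Ω U) W := by
        rw [hpro]
        exact h4
      refine ⟨W, h1, by rw [hpro]; exact (ramified_iff U x N W).2 h2, h3, h4',
        fun hWU s' hs' σ hσ z hz => ?_, fun W' b1 b2 b3 => ?_⟩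
      · exact unique_section N hN s s' W hWU h1
          (exists_res' N hN W h1 (by rw [hpro]; exact h3')) σ (h4' σ hσ) (hs' σ hσ) z hz
      · rw [hpro] at b2 b3 ⊢
        exact hun W' b1 ((ramified_iff U x N W').1 b2) b3
    refine ⟨?_, fun hbad => hBB (hram ?_)⟩
    · rcases hdich with h | h
      · left
        refine ⟨O, (gauss_iff V x N O).2 hO, fun O' hO' z hz => ?_, fun σ hσ1 hσ2 z hz hzO => ?_⟩
        · rw [hpro] at hz
          exact hOun O' ((gauss_iff V x N O').1 hO') z hz
        · rw [hpro] at hz
          exact h σ ⟨hσ1, hσ2⟩ z hz hzO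
      · exact Or.inr (hBB h)
    · obtain ⟨O', ⟨hO1, hO2⟩, z₀, hz₀, hz₀'⟩ := hbad
      refine ⟨O', fun p hp => ?_, hO2, z₀, hz₀, fun c hc h => hz₀' c hc h.2⟩
      rw [heval]
      exact ⟨hne p hp, hO1 p hp⟩

end Pool.Agent.Results.MP_2f3286_ag.RamifiedSectionsOfOpenCurves
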