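import Pool.Agent.H889.SY.GeoC
import Pool.Graph.R_seed8.V11235.SL.Res
import Pool.Graph.R_seed8.V11235.SL.Uni

/-!
# Sections with symmetries of open curves: the section conjecture for sections with a nontrivial centraliser

Let `k` be a number field, or any field which is finitely generated over `ℚ`, and `ℓ` a prime number.
Let `C` be a smooth projective curve over `k` with function field `F`, and let `x ∈ F` be a function,
transcendental over `k`, that is, a covering `x : C → ℙ¹`.  Let `U ⊆ C` be an open subcurve, proper or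
not, which is the inverse image under `x` of an open subset of `ℙ¹`.  Assume that there is a finite
covering `C' → C_k̄`, étale over `U`, such that the genus of `C'` is positive and such that
`C' → ℙ¹` is a Galois covering whose group is an `ℓ`-group, abelian or not.  (There is a polynomial
`f ≠ 0` over `k` such that `U` contains all points different from the poles of `x` and the zeros of
`f(x)`, and such that `C' → ℙ¹` is unramified outside of infinity and the zeros of `f`; it is part of
the data in the Lean statement, but not a condition.)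

Let `M = M_U` be the maximal pro-`ℓ` extension of `k̄ F` that is unramified over `U`, so that
`Gal(M/F)` is the geometrically pro-`ℓ` fundamental group of `U`, the quotient of `π₁(U)` by the kernel
of `π₁(U_k̄) → π₁(U_k̄)^(pro-ℓ)`.  The group `Gal(M/k̄(x))` is a pro-`ℓ` group which contains the group
`Gal(M/k̄F) = π₁(U_k̄)^(pro-ℓ)` as an open subgroup.  For every section `s` of `Gal(M/F) → G_k` let
`Z(s)` be the group of the elements `γ` of `Gal(M/k̄(x))` which commute with `s(H)` for some subgroup
`H` of finite index of `G_k`: the symmetries of `s`.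

**Theorem.**  For every section `s` of `Gal(M/F) → G_k` the following are equivalent.

* The section has a nontrivial symmetry, `Z(s) ≠ 1`.
* There is a rational point `P ∈ U(k)`, at which `x` is ramified, such that `s` is the section of `P`:
  the image of `s` is contained in the decomposition group of a valuation ring `W` of `M` above `P`.
* For some subgroup `H` of finite index of `G_k` the group `s(H)` is contained in the decomposition
  group of a valuation ring `W` of `M` above a closed point `P ∈ U` at which `x` is ramified.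

Then `W` is unique, even among all valuation rings of `M` over `k`, ramified over `k̄(x)`, such that
`s(H)` is in the decomposition group for some subgroup `H` of finite index, including the cusps; the
section is determined by `W`; and `Z(s)` is the stabiliser of `W` in `Gal(M/k̄(x))`, a cyclic group
whose order is the ramification index of `x` at `P`.

So for sections with symmetries the section conjecture is true for the geometrically pro-`ℓ` quotient,
for the affine and the projective curves above: such a section is never cuspidal, and it belongs to a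
unique rational point, which is a ramification point.  In particular the sections of the cusps have no
nontrivial symmetry, and if `x` is unramified over `U`, or if there are no rational ramification
points in `U`, then no section has one.  For instance, if `τ` is an automorphism of `U` over the line,
defined over `k`, and if the class of `s` is fixed by `τ`, possibly only after restriction to an open
subgroup of `G_k`, then some `γ` over `τ` commutes with the image of `s` there, so `s` is the section of
a rational point of `U` which is fixed by `τ`, if `τ ≠ 1`.  If `s` and `s'` are sections of two forms of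
`U` over the line, which agree over a finite extension of `k`, then either they agree over `k`, as
sections of `Gal(M/k(x))`, or both are sections of the same rational ramification point: for all
`σ ∈ G_k` the element `s(σ)⁻¹ s'(σ)` is in `Z(s)`.

Examples: open subcurves of the curves `d y^N = f(x)`, `N = ℓ^j`, and of the Fermat curves of degree
`N`, their quotients and étale coverings with geometric monodromy an `ℓ`-group over the line.

The library has the case of the projective curve `d y^ℓ = f(x)`, `ℓ ∣ deg f`
(`MP_2f3286_ag.SectionsWithSymmetries`), where `Z(s)` has order `ℓ` or `1`.  New are open curves with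
cusps, and arbitrary `ℓ`-groups in place of the group of order `ℓ`, as well as the description of `Z(s)`.

Proof.  (1) Let first `M_N` be the maximal everywhere unramified pro-`ℓ` extension of a finite
Galois `ℓ`-extension `N` of `k̄(x)`, with `M_N ≠ N`.  Choose a finite extension `k₁` of `k` and a
place of `k₁` prime to `ℓ` at which the branch points are integral and remain distinct, and let `φ` be a
power of a Frobenius element in `H ∩ Gal(k̄/k₁)`.  An element of `Gal(M_N/N)` which commutes with
`s(φ)` is trivial, since the classes of `M_N^× / N^×` on which `φ` acts as on the roots of unity have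
bounded exponent (Herbrand quotients and an argument of Artin-Schreier type over the finite field).
So `Z(s)` is a finite `ℓ`-group.  If it is not trivial, then its centre contains an element `c` of order
`ℓ`.  It fixes exactly one place `W` of `M_N`, and so `Z(s)` fixes `W`, and also the conjugates of `c`
under `s(G_k)`, which are in `Z(s)`, fix `W`, and therefore `s(G_k)` fixes `W`.  Conversely, the
stabiliser of `W` is embedded in the roots of unity by the tame character, which is compatible with
the action of `s(G_k)`, so if `s(H)` fixes `W`, then the stabiliser is contained in `Z(s)`.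
(2) `M` is the union of the fields `M_N` for the levels `N ⊆ M` which are stable under the section.
By (1) the places of the fields `M_N` belonging to `s` are compatible if `Z(s) ≠ 1`, and they define
`W`.  (3) If `W` is a cusp, then the tame character shows that the elements of `Z(s)` have finite order,
because they are fixed by an open subgroup of `G_k` and `k` and its finite extensions contain only
finitely many roots of unity.  But the stabiliser of a cusp is torsion free, since there is a level
`N` with a uniformiser at `W` which has an `ℓ`-th root in `M` (this follows from the divisibility of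
the Jacobian).

Here the theorem is stated for an arbitrary extension `N ⊇ M` of `F` in an algebraic closure `Ω`
instead of `M`: this includes `N = M` and the field `N = F_U` with `Gal(F_U/F) = π₁(U)`.  The
fundamental group is described through valuations: `F_U` is the maximal extension of `F` inside `Ω`
which is unramified over the closed points of `U`, that is, over their local rings, which are valuation
rings of `F`.  Then `π₁(U) = Gal(F_U/F)`, and the map `π₁(U) → G_k` is the restriction of automorphisms
to the algebraic closure of `k` in `Ω`.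
-/

open Polynomial

namespace Pool.Agent.Results.MP_2f3286_ag.SymmetricSectionsOfOpenCurves

section definitions

variable (ℓ : ℕ) (k F Ω : Type) [Field k] [Field F] [Field Ω] [Algebra k F] [Algebra F Ω]
  [Algebra k Ω]

/-- The inertia group of the valuation ring `W` of `Ω`, as a subgroup of `Gal(Ω/F)`: the
automorphisms of `Ω` over `F` that map `W` onto itself and act as the identity on its residue
field. -/
noncomputable def inertia (W : ValuationSubring Ω) : Subgroup (Ω ≃ₐ[F] Ω) :=
  (W.inertiaSubgroup F).map (W.decompositionSubgroup F).subtype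

/-- `F_U`, for a set `U` of valuation rings of `F`: the elements of `Ω` fixed by the inertia groups
of all valuation rings `W` of `Ω` with `W ∩ F ∈ U`.  If `Ω` is an algebraic closure of a field `F`
of characteristic zero, this is the maximal extension of `F` in `Ω` unramified over `U`. -/
noncomputable def unramified (U : Set (ValuationSubring F)) : IntermediateField F Ω :=
  ⨅ W : {W : ValuationSubring Ω // W.comap (algebraMap F Ω) ∈ U},
    IntermediateField.fixedField (inertia F Ω W.1)

/-- `k̄ F`, the compositum of `F` and of the algebraic closure of `k` in `Ω`. -/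
noncomputable def geomField : IntermediateField F Ω :=
  IntermediateField.adjoin F (algebraicClosure k Ω : Set Ω)

variable {F} in
/-- `k̄(x)`, the subfield of `Ω` generated by `x` and by the algebraic closure of `k` in `Ω`. -/
noncomputable def lineField (x : F) : IntermediateField (algebraicClosure k Ω) Ω :=
  IntermediateField.adjoin (algebraicClosure k Ω) {algebraMap F Ω x}

/-- The algebraic extension `L` of `K` in `Ω` is unramified at the valuation rings of `Ω` in the set
`P` which contain `k`: every nonzero element of `L` has the same valuation as an element of `K`.  (If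
`K` is a function field of one variable over the algebraic closure of `k` and `k` has characteristic
zero, then this says that `L/K` is unramified over the corresponding points of the smooth projective
curve.) -/
def Unramified {k K Ω : Type} [Field k] [Field K] [Field Ω] [Algebra k Ω] [Algebra K Ω]
    (P : Set (ValuationSubring Ω)) (L : IntermediateField K Ω) : Prop :=
  ∀ W ∈ P, (∀ c : k, algebraMap k Ω c ∈ W) → ∀ z ∈ L, z ≠ 0 →
    ∃ t : K, t ≠ 0 ∧ z / algebraMap K Ω t ∈ W ∧ (z / algebraMap K Ω t)⁻¹ ∈ W

/-- `L/K` is a finite Galois extension whose degree is a power of `ℓ`. -/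
def FiniteProEll (ℓ : ℕ) {K Ω : Type} [Field K] [Field Ω] [Algebra K Ω]
    (L : IntermediateField K Ω) : Prop :=
  FiniteDimensional K L ∧ IsGalois K L ∧ ∃ m : ℕ, Module.finrank K L = ℓ ^ m

/-- The maximal pro-`ℓ` extension of `K` in `Ω` which is unramified at the valuation rings in `P`
over `k`: the compositum of the finite Galois extensions of `K` whose degree is a power of `ℓ` and
which are unramified at `P`. -/
noncomputable def maxProEll (ℓ : ℕ) (k K Ω : Type) [Field k] [Field K] [Field Ω] [Algebra k Ω]
    [Algebra K Ω] (P : Set (ValuationSubring Ω)) : IntermediateField K Ω :=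
  ⨆ L : {L : IntermediateField K Ω // FiniteProEll ℓ L ∧ Unramified (k := k) P L}, L.1

/-- `M_U`, the maximal pro-`ℓ` extension of `k̄ F` in `Ω` which is unramified over `U`, as an extension
of `F`. -/
noncomputable def proEllField (U : Set (ValuationSubring F)) : IntermediateField F Ω :=
  (maxProEll ℓ k (geomField k F Ω) Ω {W | W.comap (algebraMap F Ω) ∈ U}).restrictScalars F

/-- The map `τ : M → M` acts as `σ : K → K` on the elements that the fields `K` and `M` have in
common when they are regarded as subfields of `Ω` through `i` and `j`. -/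
def ActsAs {K M Ω : Type} [Field K] [Field M] [Field Ω] (i : K →+* Ω) (j : M →+* Ω) (σ : K → K)
    (τ : M → M) : Prop :=
  ∀ c z, j z = i c → j (τ z) = i (σ c)

/-- Let `k ⊆ K ⊆ Ω` and `F ⊆ N ⊆ Ω` be fields.  A splitting of `Gal(N/F) → Gal(K/k)`: a continuous
homomorphism `s` from `Gal(K/k)` to `Gal(N/F)` such that `s(σ)` acts as `σ` on the elements of
`K ∩ N`. -/
structure Splitting (K N : Type) [Field K] [Field N] [Algebra k K] [Algebra F N] [Algebra K Ω]
    [Algebra N Ω] where
  /-- the homomorphism `Gal(K/k) → Gal(N/F)` -/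
  toHom : (K ≃ₐ[k] K) →* (N ≃ₐ[F] N)
  cont : Continuous toHom
  compat : ∀ σ : K ≃ₐ[k] K, ActsAs (algebraMap K Ω) (algebraMap N Ω) σ (toHom σ)

end definitions

section places

/-- The valuation ring `W` of `N` contains `k`. -/
def ContainsConstants (k : Type) {F N : Type} [Field k] [Field F] [Field N] [Algebra k F]
    [Algebra F N] (W : ValuationSubring N) : Prop :=
  ∀ c : k, algebraMap F N (algebraMap k F c) ∈ W

/-- The extension `M` of `k̄(x)`, where `M ⊆ N ⊆ Ω`, is ramified at the valuation ring `W` of `N`:
there is an element `z ≠ 0` of `M` whose valuation is different from the valuations of all elements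
`t ≠ 0` of `k̄(x)`. -/
def RamifiedIn (k : Type) {F Ω N : Type} [Field k] [Field F] [Field Ω] [Field N]
    [Algebra F Ω] [Algebra k Ω] [Algebra N Ω] (M : IntermediateField F Ω) (x : F)
    (W : ValuationSubring N) : Prop :=
  ∃ z : N, algebraMap N Ω z ∈ M ∧ z ≠ 0 ∧
    ∀ t : N, algebraMap N Ω t ∈ lineField k Ω x → t ≠ 0 → ¬ (z / t ∈ W ∧ (z / t)⁻¹ ∈ W)

/-- The residue field of `W ∩ F` is `k`. -/
def RationalResidue (k F : Type) {N : Type} [Field k] [Field F] [Field N] [Algebra k F]
    [Algebra F N] (W : ValuationSubring N) : Prop :=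
  ∀ z : F, algebraMap F N z ∈ W → ∃ c : k, algebraMap F N (z - algebraMap k F c) ∈ W.nonunits

/-- The valuation ring `W` of `N` contains `k`, and `W ∩ F` is in `U`, and `M / k̄(x)` is ramified at
`W`.  (If `M / k̄ F` is unramified over `U`, then this says that `W` is above a point of `U` at which
`x` is ramified.) -/
structure AboveRamificationPoint (k : Type) {F Ω N : Type} [Field k] [Field F] [Field Ω] [Field N]
    [Algebra k F] [Algebra F Ω] [Algebra k Ω] [Algebra F N] [Algebra N Ω]
    (M : IntermediateField F Ω) (x : F) (U : Set (ValuationSubring F)) (W : ValuationSubring N) :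
    Prop where
  constants : ContainsConstants (F := F) k W
  above : W.comap (algebraMap F N) ∈ U
  ramified : RamifiedIn k M x W

variable {k F Ω K N : Type} [Field k] [Field F] [Field Ω] [Field K] [Field N]
    [Algebra k F] [Algebra k K] [Algebra F N] [Algebra F Ω] [Algebra K Ω] [Algebra N Ω]

/-- The image of the subgroup `H` of `Gal(K/k)` under `s : Gal(K/k) → Gal(N/F)` and the restriction to
`M`, where `M ⊆ N ⊆ Ω`, is contained in the decomposition group of the valuation ring `W ∩ M`. -/
def InDecomposition (s : Splitting k F Ω K N) (H : Subgroup (K ≃ₐ[k] K))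
    (M : IntermediateField F Ω) (W : ValuationSubring N) : Prop :=
  ∀ σ ∈ H, ∀ z : N, algebraMap N Ω z ∈ M → (s.toHom σ z ∈ W ↔ z ∈ W)

/-- The splittings `s` and `s'` of `Gal(N/F) → Gal(K/k)` agree on `M`. -/
def AgreeOn (M : IntermediateField F Ω) (s s' : Splitting k F Ω K N) : Prop :=
  ∀ (σ : K ≃ₐ[k] K) (z : N), algebraMap N Ω z ∈ M → s.toHom σ z = s'.toHom σ z

/-- The splitting `s` induces on `M ⊆ N` the section of exactly one rational point of `U` at which `x`
is ramified: there is a valuation ring `W` of `N` above such a point, with residue field `k` on `F`,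
such that the image of `s` in `Gal(M/F)` is contained in the decomposition group of `W ∩ M`; all
splittings with this property agree on `M`; and `W ∩ M` is the only valuation ring of `M` over `k`,
ramified over `k̄(x)`, whose decomposition group contains the image of a subgroup `H` of finite
index. -/
def FromRamificationPoint [Algebra k Ω] (x : F) (U : Set (ValuationSubring F))
    (s : Splitting k F Ω K N) (M : IntermediateField F Ω) : Prop :=
  ∃ W : ValuationSubring N,
    AboveRamificationPoint k M x U W ∧ RationalResidue k F W ∧ InDecomposition s ⊤ M W ∧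
    (∀ s' : Splitting k F Ω K N, InDecomposition s' ⊤ M W → AgreeOn M s s') ∧
    ∀ H : Subgroup (K ≃ₐ[k] K), H.FiniteIndex → ∀ W' : ValuationSubring N,
      ContainsConstants (F := F) k W' → RamifiedIn k M x W' → InDecomposition s H M W' →
        ∀ z : N, algebraMap N Ω z ∈ M → (z ∈ W' ↔ z ∈ W)

/-- For some subgroup `H` of finite index of `Gal(K/k)` the image of `H` under `s` in `Gal(M/F)` is
contained in the decomposition group of a valuation ring above a point of `U` at which `x` is
ramified. -/
def FromRamificationPointOverFiniteIndex [Algebra k Ω] (x : F) (U : Set (ValuationSubring F))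
    (s : Splitting k F Ω K N) (M : IntermediateField F Ω) : Prop :=
  ∃ H : Subgroup (K ≃ₐ[k] K), H.FiniteIndex ∧
    ∃ W : ValuationSubring N, AboveRamificationPoint k M x U W ∧ InDecomposition s H M W

/-- `γ` is an element of `Gal(M/k̄(x))`: an automorphism of the field `M` which fixes `x` and the
elements of `M` that are algebraic over `k`. -/
structure IsGeometric (k : Type) {F Ω : Type} [Field k] [Field F] [Field Ω] [Algebra F Ω]
    [Algebra k Ω] (x : F) (M : IntermediateField F Ω) (γ : M ≃+* M) : Prop where
  const : ∀ z : M, IsAlgebraic k (z : Ω) → γ z = z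
  base : γ (algebraMap F M x) = algebraMap F M x

/-- The automorphism `γ` of `M` commutes with the automorphism of `M` given by the map `τ : N → N`: if
`τ` maps `z ∈ M` to `w ∈ M`, then it maps `γ(z)` to `γ(w)`. -/
def CommutesWith (M : IntermediateField F Ω) (γ : M ≃+* M) (τ : N → N) : Prop :=
  ∀ (z w : M) (a b : N), algebraMap N Ω a = z → algebraMap N Ω b = γ z →
    algebraMap N Ω (τ a) = w → algebraMap N Ω (τ b) = γ w

/-- `γ` is a symmetry of `s`: for some subgroup `H` of finite index of `Gal(K/k)` the automorphism `γ`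
of `M` commutes with the action of `s(σ)` on `M` for all `σ ∈ H`. -/
def IsSymmetry (s : Splitting k F Ω K N) (M : IntermediateField F Ω) (γ : M ≃+* M) : Prop :=
  ∃ H : Subgroup (K ≃ₐ[k] K), H.FiniteIndex ∧ ∀ σ ∈ H, CommutesWith M γ (s.toHom σ)

/-- Some element of `Gal(M/k̄(x))` different from the identity is a symmetry of `s`. -/
def HasSymmetry [Algebra k Ω] (x : F) (s : Splitting k F Ω K N) (M : IntermediateField F Ω) :
    Prop :=
  ∃ γ : M ≃+* M, γ ≠ RingEquiv.refl M ∧ IsGeometric k x M γ ∧ IsSymmetry s M γ

/-- If the image of a subgroup of finite index under `s` is contained in the decomposition group of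
`W ∩ M`, where `W` is above a point of `U` at which `x` is ramified, then the symmetries of `s` in
`Gal(M/k̄(x))` are the elements `γ` which map `W ∩ M` to itself. -/
def SymmetriesAreStabiliser [Algebra k Ω] (x : F) (U : Set (ValuationSubring F))
    (s : Splitting k F Ω K N) (M : IntermediateField F Ω) : Prop :=
  ∀ (H : Subgroup (K ≃ₐ[k] K)) (W : ValuationSubring N), H.FiniteIndex →
    AboveRamificationPoint k M x U W → InDecomposition s H M W →
      ∀ γ : M ≃+* M, IsGeometric k x M γ →
        (IsSymmetry s M γ ↔ ∀ (z : M) (a b : N), algebraMap N Ω a = z → algebraMap N Ω b = γ z →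
          (b ∈ W ↔ a ∈ W))

end places

section curves

/-- `F` is a finite extension of `k(x)`, where `x` is transcendental over `k`. -/
def IsCovering (k : Type) {F : Type} [Field k] [Field F] [Algebra k F] (x : F) : Prop :=
  Transcendental k x ∧ FiniteDimensional (IntermediateField.adjoin k {x}) F

/-- `U` is a set of valuation rings of `F` over `k` which is the inverse image of a set of valuation
rings of `k(x)`, and which contains the nontrivial valuation rings over `k` which contain `x` and at
which `f(x)` is a unit.  (If the trivial valuation ring is not in `U`, then `U` is the set of the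
closed points of the inverse image under `x` of an open subset of `ℙ¹` which contains all points
different from infinity and the zeros of `f`.  It makes no difference in the theorem whether the
trivial valuation ring is in `U`.) -/
structure OpenSubcurve {k F : Type} [Field k] [Field F] [Algebra k F] (f : k[X]) (x : F)
    (U : Set (ValuationSubring F)) : Prop where
  constants : ∀ O ∈ U, ∀ c : k, algebraMap k F c ∈ O
  saturated : ∀ O ∈ U, ∀ O' : ValuationSubring F, (∀ c : k, algebraMap k F c ∈ O') →
    (∀ r ∈ IntermediateField.adjoin k {x}, r ∈ O' ↔ r ∈ O) → O' ∈ U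
  contains : ∀ O : ValuationSubring F, O ≠ ⊤ → (∀ c : k, algebraMap k F c ∈ O) → x ∈ O →
    aeval x f ∉ O.nonunits → O ∈ U

/-- `L`, an extension of `k̄(x)` in `Ω`, is Galois of degree a power of `ℓ` over `k̄(x)`, it contains
`F`, it is unramified over `k̄ F` at the points of `U`, it is unramified over `k̄(x)` outside of
infinity and of the zeros of the polynomial `f`, and its genus is positive: there is a nontrivial
everywhere unramified extension of degree a power of `ℓ`. -/
structure EllGroupCovering (ℓ : ℕ) {k F Ω : Type} [Field k] [Field F] [Field Ω] [Algebra k F]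
    [Algebra F Ω] [Algebra k Ω] (f : k[X]) (x : F) (U : Set (ValuationSubring F))
    (L : IntermediateField (lineField k Ω x) Ω) : Prop where
  galois : FiniteProEll ℓ L
  contains : ∀ z : F, algebraMap F Ω z ∈ L
  etale : ∀ W : ValuationSubring Ω, (∀ c : k, algebraMap k Ω c ∈ W) →
    W.comap (algebraMap F Ω) ∈ U → ∀ z ∈ L, z ≠ 0 →
      ∃ t ∈ geomField k F Ω, t ≠ 0 ∧ z / t ∈ W ∧ (z / t)⁻¹ ∈ W
  branch : ∀ W : ValuationSubring Ω, (∀ c : k, algebraMap k Ω c ∈ W) → algebraMap F Ω x ∈ W →
    algebraMap F Ω (aeval x f) ∉ W.nonunits → ∀ z ∈ L, z ≠ 0 →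
      ∃ t ∈ lineField k Ω x, t ≠ 0 ∧ z / t ∈ W ∧ (z / t)⁻¹ ∈ W
  genus : ∃ z ∈ maxProEll ℓ k L Ω Set.univ, z ∉ L

end curves

lemma iSup_congr_prop {α : Type} [CompleteLattice α] {P Q : α → Prop} (h : ∀ L, P L ↔ Q L) :
    (⨆ L : {L // P L}, L.1) = ⨆ L : {L // Q L}, L.1 := by
  have h1 : P = Q := funext fun L => propext (h L)
  subst h1
  rfl

lemma proEll_eq (ℓ : ℕ) (k F Ω : Type) [Field k] [Field F] [Field Ω] [Algebra k F] [Algebra F Ω]
    [Algebra k Ω] (U : Set (ValuationSubring F)) :
    proEllField ℓ k F Ω U = Pool.Agent.H889.LM.proU ℓ k F Ω U := by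
  unfold proEllField Pool.Agent.H889.LM.proU maxProEll Pool.Agent.H889.LM.maxU
  congr 1
  refine iSup_congr_prop fun L => ?_
  constructor
  · rintro ⟨⟨h1, h2, h3⟩, h4⟩
    refine ⟨⟨h1, h2, h3⟩, fun W hW hPW z hz hz0 => ?_⟩
    by_cases htop : W = ⊤
    · subst htop
      exact ⟨1, one_ne_zero, div_ne_zero hz0 ((_root_.map_ne_zero _).2 one_ne_zero), trivial,
        trivial⟩
    · obtain ⟨t, ht, h5, h6⟩ := h4 W (hPW htop) hW z hz hz0
      exact ⟨t, ht, div_ne_zero hz0 ((_root_.map_ne_zero _).2 ht), h5, h6⟩
  · rintro ⟨⟨h1, h2, h3⟩, h4⟩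
    refine ⟨⟨h1, h2, h3⟩, fun W hPW hW z hz hz0 => ?_⟩
    obtain ⟨t, ht, -, h5, h6⟩ := h4 W hW (fun _ => hPW) z hz hz0
    exact ⟨t, ht, h5, h6⟩

lemma maxPro_eq (ℓ : ℕ) (k K Ω : Type) [Field k] [Field K] [Field Ω] [Algebra k Ω]
    [Algebra K Ω] : maxProEll ℓ k K Ω Set.univ = Pool.Agent.Y157.PS.maxPro ℓ k K Ω := by
  unfold maxProEll Pool.Agent.Y157.PS.maxPro
  refine iSup_congr_prop fun L => ?_
  constructor
  · rintro ⟨⟨h1, h2, h3⟩, h4⟩
    refine ⟨⟨h1, h2, h3⟩, fun W hW z hz hz0 => ?_⟩
    obtain ⟨t, ht, h5, h6⟩ := h4 W trivial hW z hz hz0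
    exact ⟨t, ht, div_ne_zero hz0 ((_root_.map_ne_zero _).2 ht), h5, h6⟩
  · rintro ⟨⟨h1, h2, h3⟩, h4⟩
    refine ⟨⟨h1, h2, h3⟩, fun W _ hW z hz hz0 => ?_⟩
    obtain ⟨t, ht, -, h5, h6⟩ := h4 W hW z hz hz0
    exact ⟨t, ht, h5, h6⟩

section proof

variable {ℓ : ℕ} {k F Ω : Type} [Field k] [CharZero k] [Field F] [Field Ω] [Algebra k F]
  [Algebra F Ω] [Algebra k Ω] [IsScalarTower k F Ω] [IsAlgClosure F Ω]
  {U : Set (ValuationSubring F)}

omit [CharZero k] [Algebra k F] [IsScalarTower k F Ω] [IsAlgClosure F Ω] in
lemma mem_proEll (c : algebraicClosure k Ω) : (c : Ω) ∈ proEllField ℓ k F Ω U := by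
  have h1 : (c : Ω) ∈ geomField k F Ω := IntermediateField.subset_adjoin _ _ c.2
  exact (maxProEll ℓ k (geomField k F Ω) Ω
    {W | W.comap (algebraMap F Ω) ∈ U}).algebraMap_mem ⟨(c : Ω), h1⟩

/-- the algebraic closure of `k` inside `N` -/
def iota (N : IntermediateField F Ω) (hN : proEllField ℓ k F Ω U ≤ N) :
    algebraicClosure k Ω →+* N where
  toFun c := ⟨(c : Ω), hN (mem_proEll c)⟩
  map_one' := Subtype.ext rfl
  map_mul' := fun _ _ => Subtype.ext rfl
  map_zero' := Subtype.ext rfl
  map_add' := fun _ _ => Subtype.ext rfl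

omit [CharZero k] in
lemma iota_mem (N : IntermediateField F Ω) (hN : proEllField ℓ k F Ω U ≤ N)
    (W : ValuationSubring N)
    (h1 : ∀ c : k, algebraMap F N (algebraMap k F c) ∈ W) (c : algebraicClosure k Ω) :
    iota N hN c ∈ W := by
  have hcl : IsAlgClosed Ω := IsAlgClosure.isAlgClosed F
  have hι : ∀ c : k, iota N hN (algebraMap k (algebraicClosure k Ω) c) =
      algebraMap F N (algebraMap k F c) := by
    intro c
    apply Subtype.ext
    change algebraMap k Ω c = algebraMap F Ω (algebraMap k F c)
    exact IsScalarTower.algebraMap_apply k F Ω c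
  have hacl : IsAlgClosure k (algebraicClosure k Ω) := inferInstance
  have hc : IsIntegral k c := (hacl.isAlgebraic.isAlgebraic c).isIntegral
  obtain ⟨p, hp, hpc⟩ := hc
  let g : k →+* W :=
    { toFun := fun a => ⟨algebraMap F N (algebraMap k F a), h1 a⟩
      map_one' := Subtype.ext (by simp)
      map_mul' := fun a b => Subtype.ext (by simp)
      map_zero' := Subtype.ext (by simp)
      map_add' := fun a b => Subtype.ext (by simp) }
  have hint : IsIntegral W (iota N hN c) := by
    refine ⟨p.map g, hp.map g, ?_⟩
    rw [eval₂_map]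
    have h2 : (algebraMap W N).comp g = (iota N hN).comp (algebraMap k (algebraicClosure k Ω)) := by
      ext1 a
      exact (hι a).symm
    rw [h2, ← hom_eval₂, hpc, map_zero]
  obtain ⟨w, hw⟩ := (IsIntegrallyClosed.isIntegral_iff (R := W)).1 hint
  rw [← hw]
  exact w.2

/-- there is only one section for every point of `U`, locally -/
lemma unique_section (N : IntermediateField F Ω) (hN : proEllField ℓ k F Ω U ≤ N)
    (s s' : Splitting k F Ω (algebraicClosure k Ω) N) (W : ValuationSubring N)
    (hWU : W.comap (algebraMap F N) ∈ U)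
    (h1 : ∀ c : k, algebraMap F N (algebraMap k F c) ∈ W)
    (h3 : ∀ z ∈ W, ∃ c, z - iota N hN c ∈ W.nonunits)
    (σ : algebraicClosure k Ω ≃ₐ[k] algebraicClosure k Ω)
    (h4 : ∀ z : N, (z : Ω) ∈ proEllField ℓ k F Ω U → (s.toHom σ z ∈ W ↔ z ∈ W))
    (h4' : ∀ z : N, (z : Ω) ∈ proEllField ℓ k F Ω U → (s'.toHom σ z ∈ W ↔ z ∈ W))
    (z : N) (hz : (z : Ω) ∈ proEllField ℓ k F Ω U) : s.toHom σ z = s'.toHom σ z := by
  have hcl : IsAlgClosed Ω := IsAlgClosure.isAlgClosed F
  have halg : Algebra.IsAlgebraic F Ω := IsAlgClosure.isAlgebraic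
  have hc0 : CharZero Ω := charZero_of_injective_algebraMap (algebraMap k Ω).injective
  let τ : N ≃ₐ[F] N := (s.toHom σ).trans (s'.toHom σ).symm
  have hτ : ∀ z : N, s'.toHom σ (τ z) = s.toHom σ z := fun z =>
    (s'.toHom σ).apply_symm_apply _
  have hfixc : ∀ c : algebraicClosure k Ω, τ (iota N hN c) = iota N hN c := by
    intro c
    apply (s'.toHom σ).injective
    rw [hτ]
    apply Subtype.ext
    exact (s.compat σ c (iota N hN c) rfl).trans (s'.compat σ c (iota N hN c) rfl).symm
  have hgeo : geomField k F Ω ≤ Pool.Agent.V11235.SL.fixF N τ := by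
    refine IntermediateField.adjoin_le_iff.2 fun c hc => ?_
    exact ⟨hN (mem_proEll ⟨c, hc⟩), hfixc ⟨c, hc⟩⟩
  have hL : ∀ L : {L : IntermediateField (geomField k F Ω) Ω // FiniteProEll ℓ L ∧
      Unramified (k := k) {W | W.comap (algebraMap F Ω) ∈ U} L},
      L.1 ≤ IntermediateField.extendScalars hgeo := by
    rintro ⟨L, ⟨hfin, hgal, hcard⟩, hun⟩
    intro z hz
    change z ∈ L at hz
    have hLM : ∀ z ∈ L, z ∈ proEllField ℓ k F Ω U := by
      intro z hz
      have h5 : L ≤ maxProEll ℓ k (geomField k F Ω) Ω {W | W.comap (algebraMap F Ω) ∈ U} := by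
        refine le_iSup (fun L : {L : IntermediateField (geomField k F Ω) Ω // FiniteProEll ℓ L ∧
          Unramified (k := k) {W | W.comap (algebraMap F Ω) ∈ U} L} => L.1)
          ⟨L, ⟨hfin, hgal, hcard⟩, hun⟩
      exact h5 hz
    have hLN : ∀ z ∈ L, z ∈ N := fun z hz => hN (hLM z hz)
    obtain ⟨V, hV⟩ := Pool.Agent.Y157.PS.a_extv N Ω W
    have hVW : ∀ w : N, (w : Ω) ∈ V ↔ w ∈ W := by
      intro w
      rw [← hV]
      rfl
    have hVU : V.comap (algebraMap F Ω) ∈ U := by
      have h5 : V.comap (algebraMap F Ω) = W.comap (algebraMap F N) := by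
        rw [← hV]
        rfl
      rw [h5]
      exact hWU
    have hkV : ∀ c : k, algebraMap k Ω c ∈ V := by
      intro c
      have h5 := (hVW (algebraMap F N (algebraMap k F c))).2 (h1 c)
      rw [IsScalarTower.algebraMap_apply k F Ω c]
      exact h5
    refine ⟨hLN z hz, ?_⟩
    refine Pool.Agent.V11235.SL.triv (geomField k F Ω) N L hLN W (iota N hN) (iota_mem N hN W h1)
      (fun c => IntermediateField.subset_adjoin _ _ c.2) τ (fun w hw => (hgeo hw).2)
      h3 ?_ ?_ ⟨z, hLN z hz⟩ hz
    · intro w hw hw0
      have hw0' : (w : Ω) ≠ 0 := fun h => hw0 (Subtype.ext h)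
      obtain ⟨t, ht0, h5, h6⟩ := hun V hVU hkV w hw hw0'
      refine ⟨⟨(t : Ω), hLN _ (L.algebraMap_mem t)⟩, t.2, fun h => ht0 (Subtype.ext ?_),
        (hVW _).1 h5, (hVW _).1 h6⟩
      exact congrArg (fun r : N => (r : Ω)) h
    · intro w hw hw'
      rw [← h4 w (hLM _ hw), ← h4' (τ w) (hLM _ hw'), hτ]
  have h5 : (z : Ω) ∈ IntermediateField.extendScalars hgeo := (iSup_le hL) hz
  obtain ⟨h6, h7⟩ := (IntermediateField.mem_extendScalars hgeo).1 h5
  have h8 : τ z = z := h7
  rw [← hτ z, h8]

omit [CharZero k] in
/-- residues of the elements of `N` are in the algebraic closure of `k` -/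
lemma exists_res' (N : IntermediateField F Ω) (hN : proEllField ℓ k F Ω U ≤ N)
    (W : ValuationSubring N) (h1 : ∀ c : k, algebraMap F N (algebraMap k F c) ∈ W)
    (h3 : ∀ z : N, (z : Ω) ∈ proEllField ℓ k F Ω U → z ∈ W → ∃ c : algebraicClosure k Ω,
      ∃ z' ∈ W.nonunits, (z' : Ω) = (z : Ω) - c) (z : N) (hz : z ∈ W) :
    ∃ c, z - iota N hN c ∈ W.nonunits := by
  have hcl : IsAlgClosed Ω := IsAlgClosure.isAlgClosed F
  have halg : Algebra.IsAlgebraic F Ω := IsAlgClosure.isAlgebraic
  have hacl : IsAlgClosure k (algebraicClosure k Ω) := inferInstance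
  have hclK : IsAlgClosed (algebraicClosure k Ω) := hacl.isAlgClosed
  let M := proEllField ℓ k F Ω U
  let _ : Algebra M N := ((IntermediateField.inclusion hN : M →ₐ[F] N) : M →+* N).toAlgebra
  let _ : Algebra (algebraicClosure k Ω) M :=
    (iota (ℓ := ℓ) (k := k) (U := U) M le_rfl : algebraicClosure k Ω →+* M).toAlgebra
  have hzalg : IsAlgebraic M z := by
    have h2 : IsAlgebraic F z := by
      have h2 : IsAlgebraic F (z : Ω) := halg.isAlgebraic _
      exact (isAlgebraic_algebraMap_iff (R := F) (S := N) (A := Ω) (algebraMap N Ω).injective).1 h2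
    have : IsScalarTower F M N := IsScalarTower.of_algebraMap_eq fun r => rfl
    exact h2.tower_top M
  refine Pool.Agent.V11235.SL.residue_alg (k := algebraicClosure k Ω) (F := M) (iota N hN)
    (fun c => rfl) W (iota_mem N hN W h1) ?_ z hzalg hz
  intro w hw
  obtain ⟨c, z', hz', hc⟩ := h3 (algebraMap M N w) w.2 hw
  refine ⟨c, ?_⟩
  have h5 : algebraMap M N (w - algebraMap (algebraicClosure k Ω) M c) = z' :=
    Subtype.ext hc.symm
  rw [h5]
  exact hz'

end proof

/-- the two forms of the definition of ramification -/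
lemma ramified_iff {ℓ : ℕ} {k F Ω : Type} [Field k] [Field F] [Field Ω] [Algebra k F]
    [Algebra F Ω] [Algebra k Ω] [IsScalarTower k F Ω] (U : Set (ValuationSubring F)) (x : F)
    (N : IntermediateField F Ω) (W : ValuationSubring N) :
    RamifiedIn k (Pool.Agent.H889.LM.proU ℓ k F Ω U) x W ↔
      Pool.Agent.H889.LM.RamU ℓ k U x N W := by
  constructor
  · rintro ⟨z, hz, hz0, hzt⟩
    exact ⟨z, hz, hz0, fun t ht ht0 h => hzt t ht ht0 h.2⟩
  · rintro ⟨z, hz, hz0, hzt⟩
    exact ⟨z, hz, hz0, fun t ht ht0 h => hzt t ht ht0 ⟨div_ne_zero hz0 ht0, h.1, h.2⟩⟩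

/-- Let `k` be a field which is finitely generated over `ℚ`, for instance a number field, `ℓ` a prime
number, `F` the function field of a curve `C` over `k`, `Ω` an algebraic closure of `F`, and `x ∈ F` a
function which is transcendental over `k`.  Let `U ⊆ C` be open, proper or not, the inverse image
under `x` of an open subset of the line.  Assume that there is a finite covering `C' → C_k̄` which
is étale over `U`, such that `C' → ℙ¹` is Galois with an `ℓ`-group, and such that the genus of `C'` is
positive.  Let `M = proEllField ℓ k F Ω U`, the maximal pro-`ℓ` extension of `k̄ F` unramified over `U`;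
it is contained in `F_U`.  Let `N ⊇ M` be an extension of `F` in `Ω`, for instance `N = M` or `N = F_U`,
and let `s` be a section of `Gal(N/F) → G_k`.  Then `s` has a nontrivial symmetry if and only if it
induces on `M` the section of exactly one rational point of `U` at which `x` is ramified, if and only
if it belongs to a valuation ring above such a point over some subgroup of finite index; and the
symmetries of `s` are then the elements of `Gal(M/k̄(x))` which fix this valuation ring of `M`. -/
theorem result (k F Ω : Type) [Field k] [CharZero k] (hk : (⊤ : IntermediateField ℚ k).FG)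
    [Field F] [Field Ω] [Algebra k F] [Algebra F Ω] [Algebra k Ω] [IsScalarTower k F Ω]
    [IsAlgClosure F Ω] (ℓ : ℕ) [Fact ℓ.Prime] (x : F)
    (hx : IsCovering k x) (f : k[X]) (hf : f ≠ 0) (U : Set (ValuationSubring F))
    (hU : OpenSubcurve f x U)
    (L : IntermediateField (lineField k Ω x) Ω) (hL : EllGroupCovering ℓ f x U L) :
    proEllField ℓ k F Ω U ≤ unramified F Ω U ∧
    ∀ N : IntermediateField F Ω, proEllField ℓ k F Ω U ≤ N →
      ∀ s : Splitting k F Ω (algebraicClosure k Ω) N,
        (HasSymmetry x s (proEllField ℓ k F Ω U) ↔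
          FromRamificationPoint x U s (proEllField ℓ k F Ω U)) ∧
        (FromRamificationPointOverFiniteIndex x U s (proEllField ℓ k F Ω U) ↔
          FromRamificationPoint x U s (proEllField ℓ k F Ω U)) ∧
        SymmetriesAreStabiliser x U s (proEllField ℓ k F Ω U) := by
  obtain ⟨hxt, hfin⟩ := hx
  obtain ⟨⟨hL1, hL2, hL3⟩, hFL, hLu, hLf, hbig⟩ := hL
  have hcl : IsAlgClosed Ω := IsAlgClosure.isAlgClosed F
  have halg : Algebra.IsAlgebraic F Ω := IsAlgClosure.isAlgebraic
  have hacl : IsAlgClosure k (algebraicClosure k Ω) := inferInstance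
  have hpro := proEll_eq ℓ k F Ω U
  have hlev : Pool.Agent.Y157.PS.Lev ℓ L := ⟨hL1, hL2, hL3⟩
  have hLu' : ∀ W : ValuationSubring Ω, (∀ c : k, algebraMap k Ω c ∈ W) →
      W.comap (algebraMap F Ω) ∈ U → ∀ z ∈ L, z ≠ 0 →
      ∃ t ∈ Pool.Agent.Y157.PS.geomF k F Ω, t ≠ 0 ∧ Pool.Agent.Y157.PS.IsU W (z / t) :=
    fun W hW hWU z hz hz0 => by
      obtain ⟨t, ht, ht0, h5, h6⟩ := hLu W hW hWU z hz hz0
      exact ⟨t, ht, ht0, div_ne_zero hz0 ht0, h5, h6⟩
  have hLf' : ∀ W : ValuationSubring Ω, (∀ c : k, algebraMap k Ω c ∈ W) → algebraMap F Ω x ∈ W →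
      algebraMap F Ω (aeval x f) ∉ W.nonunits → ∀ z ∈ L, z ≠ 0 →
        ∃ t ∈ Pool.Agent.H889.PS.ratL (Ω := Ω) k x, t ≠ 0 ∧
          Pool.Agent.Y157.PS.IsU W (z / t) :=
    fun W hW hxW hfW z hz hz0 => by
      obtain ⟨t, ht, ht0, h5, h6⟩ := hLf W hW hxW hfW z hz hz0
      exact ⟨t, ht, ht0, div_ne_zero hz0 ht0, h5, h6⟩
  have hbig' : ∃ z ∈ Pool.Agent.Y157.PS.maxPro ℓ k L Ω, z ∉ L := by
    rw [maxPro_eq] at hbig
    exact hbig
  refine ⟨?_, fun N hN s => ?_⟩
  · rw [hpro]
    exact Pool.Agent.H889.LM.proU_le ℓ U hU.constants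
  · have hN' : Pool.Agent.H889.LM.proU ℓ k F Ω U ≤ N := by rw [← hpro]; exact hN
    obtain ⟨m1, m2⟩ := Pool.Agent.H889.SY.finT f hf
      (fun B _ => Pool.Agent.H889.SY.rr_fg hk B) x hxt U
      hU.constants hU.saturated hU.contains L hlev hFL hLu' hLf' hbig' N hN' s.toHom s.cont
      (fun σ c z hz => s.compat σ c z hz)
    have hres0 : ∀ W : ValuationSubring N, (∀ z : N, (z : Ω) ∈ proEllField ℓ k F Ω U → z ∈ W →
        ∃ c : algebraicClosure k Ω, ∃ z' ∈ W.nonunits, (z' : Ω) = (z : Ω) - c) →
        ∀ h1 : (∀ c : k, algebraMap F N (algebraMap k F c) ∈ W),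
        ∀ z ∈ W, ∃ c, z - iota N hN c ∈ W.nonunits := fun W h3 h1 z hz =>
      exists_res' N hN W h1 h3 z hz
    rw [hpro] at hres0
    have huni : ∀ W : ValuationSubring N, W.comap (algebraMap F N) ∈ U →
        (∀ c : k, algebraMap F N (algebraMap k F c) ∈ W) →
        (∀ z ∈ W, ∃ c, z - iota N hN c ∈ W.nonunits) →
        ∀ s s' : Splitting k F Ω (algebraicClosure k Ω) N,
        InDecomposition s ⊤ (proEllField ℓ k F Ω U) W →
        InDecomposition s' ⊤ (proEllField ℓ k F Ω U) W →
          AgreeOn (proEllField ℓ k F Ω U) s s' := by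
      intro W hWU h1 h3 s s' hs hs' σ z hz
      exact unique_section N hN s s' W hWU h1 h3 σ (hs σ trivial) (hs' σ trivial) z hz
    rw [hpro] at huni ⊢
    have hpt : ∀ W : ValuationSubring N,
        AboveRamificationPoint k (Pool.Agent.H889.LM.proU ℓ k F Ω U) x U W ↔
          Pool.Agent.H889.SY.PtU ℓ k U x N W := by
      intro W
      constructor
      · rintro ⟨h1, h2, h3⟩
        exact ⟨h1, (ramified_iff U x N W).1 h3, h2⟩
      · rintro ⟨h1, h2, h3⟩
        exact ⟨h1, h3, (ramified_iff U x N W).2 h2⟩
    have hsy : ∀ (H : Subgroup (algebraicClosure k Ω ≃ₐ[k] algebraicClosure k Ω)) γ,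
        Pool.Agent.H889.SY.SyN k x (Pool.Agent.H889.LM.proU ℓ k F Ω U) N s.toHom H γ ↔
          (IsGeometric k x (Pool.Agent.H889.LM.proU ℓ k F Ω U) γ ∧
            ∀ σ ∈ H, CommutesWith (Pool.Agent.H889.LM.proU ℓ k F Ω U) γ (s.toHom σ)) := by
      intro H γ
      constructor
      · rintro ⟨h1, h2, h3⟩
        exact ⟨⟨h1, h2⟩, h3⟩
      · rintro ⟨⟨h1, h2⟩, h3⟩
        exact ⟨h1, h2, h3⟩
    have g1 : HasSymmetry x s (Pool.Agent.H889.LM.proU ℓ k F Ω U) →
        FromRamificationPoint x U s (Pool.Agent.H889.LM.proU ℓ k F Ω U) := by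
      rintro ⟨γ, hγ1, hγ, H, hH, hcom⟩
      obtain ⟨W, b1, b2, b3, b4, -, b6⟩ := m1 H hH.index_ne_zero γ hγ1 ((hsy H γ).2 ⟨hγ, hcom⟩)
      refine ⟨W, (hpt W).2 b1, b2, fun σ _ => b4 σ, fun s' hs' => ?_, fun H' hH' W' d1 d2 d3 => ?_⟩
      · exact huni W b1.mem b1.con (hres0 W b3 b1.con) s s' (fun σ _ => b4 σ) hs'
      · exact b6 H' hH'.index_ne_zero W' d1 ((ramified_iff U x N W').1 d2) d3
    have g2 : FromRamificationPoint x U s (Pool.Agent.H889.LM.proU ℓ k F Ω U) →
        FromRamificationPointOverFiniteIndex x U s (Pool.Agent.H889.LM.proU ℓ k F Ω U) := by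
      rintro ⟨W, h1, -, h2, -⟩
      exact ⟨⊤, inferInstance, W, h1, h2⟩
    have g3 : FromRamificationPointOverFiniteIndex x U s (Pool.Agent.H889.LM.proU ℓ k F Ω U) →
        HasSymmetry x s (Pool.Agent.H889.LM.proU ℓ k F Ω U) := by
      rintro ⟨H, hH, W, hW, hd⟩
      obtain ⟨⟨γ, hγ1, H', hH', hγ⟩, -⟩ := m2 H hH.index_ne_zero W ((hpt W).1 hW) hd
      obtain ⟨a1, a2⟩ := (hsy H' γ).1 hγ
      exact ⟨γ, hγ1, a1, H', ⟨hH'⟩, a2⟩
    refine ⟨⟨g1, fun h => g3 (g2 h)⟩, ⟨fun h => g1 (g3 h), g2⟩, ?_⟩
    intro H W hH hW hd γ hγ
    constructor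
    · rintro ⟨H', hH', hcom⟩ z a b ha hb
      have hsub : ∀ (c : N) (w : Pool.Agent.H889.LM.proU ℓ k F Ω U), algebraMap N Ω c = w →
          c = ⟨(w : Ω), hN' w.2⟩ := fun c w h => Subtype.ext h
      rw [hsub a z ha, hsub b (γ z) hb]
      by_cases hγ1 : γ = RingEquiv.refl _
      · rw [hγ1]
        rfl
      · obtain ⟨W₁, b1, -, -, -, b5, b6⟩ := m1 H' hH'.index_ne_zero γ hγ1 ((hsy H' γ).2 ⟨hγ, hcom⟩)
        have h1 := b6 H hH.index_ne_zero W ((hpt W).1 hW).con ((hpt W).1 hW).ram hd
        rw [h1 _ (γ z).2, h1 _ z.2]
        exact b5 H' hH'.index_ne_zero γ ((hsy H' γ).2 ⟨hγ, hcom⟩) z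
    · intro hγW
      obtain ⟨-, h2⟩ := m2 H hH.index_ne_zero W ((hpt W).1 hW) hd
      obtain ⟨H', hH', hγ'⟩ := h2 γ hγ.const hγ.base (fun z => hγW z _ _ rfl rfl)
      exact ⟨H', ⟨hH'⟩, ((hsy H' γ).1 hγ').2⟩

end Pool.Agent.Results.MP_2f3286_ag.SymmetricSectionsOfOpenCurves
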