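import Pool.Agent.H886.SB.Theta

/-!
# Locally geometric sections and units on étale coverings

`K` is a number field, `F` the function field of a smooth curve `U` over `K`, `C` the set of the
local rings of the closed points of `U`, `Ω` an algebraic closure of `F`, and `M = unramified F Ω C`
the maximal extension of `F` in `Ω` that is unramified over `U` (so that `M` is the function field of
the universal covering of `U`, and its Galois group over `F` is the fundamental group of `U`).
`GalSection K F M B` is the type of the sections of `π₁(U) → Gal(B/K)`, where `B` is an algebraic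
closure of `K`.

The section is assumed to be given by an adelic point of `U`. The theorem says that it is geometric as
far as the units on the étale coverings of `U` can see it, if the adelic point lies on a finite
subscheme of `U`, or if there are units `y i` on étale coverings whose values lie in a group of rank
zero, or two independent ones whose values lie in a group of rank one. The units `y i` are fixed by
the image of the absolute Galois group of a finite extension `E` of `K`. For example, let `U` be an
elliptic curve `Y² = X (X² + a X + b)` over `K`, without the origin, and `y` one of the two solutions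
of `y² - (4 X + 2 a) y + (a² - 4 b) = 0`; the other one is `(a² - 4 b) / y`. They are units on the
double covering of `U` given by an isogeny of degree two (the dual of the one with kernel generated
by the point `(0, 0)`). Here `E` is `K` or a quadratic extension; in the latter case, if `τ`
generates `Gal(E/K)`, the automorphism `s τ` maps `y` to `(a² - 4 b) / y`, so that the product is
constant, and one can take `E₀ = K` below; then `r` is the number of the archimedean places of `K`
that have two extensions to `E`. These are the complex places and the real places at which the
discriminant `16 (X² + a X + b)` is positive along the section.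
-/

set_option autoImplicit false

namespace Pool.Agent.Results.MP_2f3286_ag.UnitsOnCoverings

open Polynomial IsDedekindDomain
open Pool.Agent.TH954 (GalSection Plc)
open Pool.Agent.W620.SC (unramified)
open scoped NumberField

section defs

variable {K F M B : Type} [Field K] [Field F] [Field M] [Field B] [Algebra F M]
  [Algebra K M] [Algebra K B] {n : ℕ}

/-- `F` is a function field of one variable over `K` -/
def OneVariable (K F : Type) [Field K] [Field F] [Algebra K F] : Prop :=
  ∃ t : F, Transcendental K t ∧ Algebra.IsAlgebraic (IntermediateField.adjoin K {t}) F

/-- the ring of the regular functions on the curve with the local rings `C` -/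
def regular (C : Set (ValuationSubring F)) : Subring F where
  carrier := {f | ∀ O ∈ C, f ∈ O}
  mul_mem' ha hb O hO := mul_mem (ha O hO) (hb O hO)
  one_mem' O _ := one_mem O
  add_mem' ha hb O hO := add_mem (ha O hO) (hb O hO)
  zero_mem' O _ := zero_mem O
  neg_mem' ha O hO := neg_mem (ha O hO)

/-- `y` is integral over the ring of regular functions -/
def IsIntegralOver (C : Set (ValuationSubring F)) (y : M) : Prop :=
  ((algebraMap F M).comp (regular C).subtype).IsIntegralElem y

/-- `y` is a unit on the universal covering of the curve (on some étale covering): `y` and its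
inverse are integral over the ring of regular functions -/
def IsUnitOver (C : Set (ValuationSubring F)) (y : M) : Prop :=
  y ≠ 0 ∧ IsIntegralOver C y ∧ IsIntegralOver C y⁻¹

/-- two of the `y i` are multiplicatively independent modulo constants: no product of powers of the
two, except the trivial one, is algebraic over `K` -/
def TwoIndependent (K : Type) [Field K] [Algebra K M] (y : Fin n → M) : Prop :=
  ∃ i j, ∀ a b : ℤ, (a ≠ 0 ∨ b ≠ 0) → Transcendental K (y i ^ a * y j ^ b)

/-- The section `s` is given over the extension `L` of `K` by the place `P` of `M` with values in the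
algebraic closure `A` of `L`: whenever `σ ∈ Gal(A/L)` and `g ∈ Gal(B/K)` are compatible on `B`, the
place turns `s g` into `σ`. -/
def Compatible (s : GalSection K F M B) (L : Type) {A : Type} [Field L] [Field A] [Algebra L A]
    [Algebra K A] (P : Plc K M A) : Prop :=
  ∀ (σ : A ≃ₐ[L] A) (g : B ≃ₐ[K] B),
    (∀ z c, P.val (s.j z) c → P.val (s.j (g z)) (σ c)) →
    ∀ y c, P.val y c → P.val (s.s g y) (σ c)

/-- The section `s` is given by an adelic point of the curve `U` with the local rings `C`: over each
completion `K_v` at a finite place it is given by a point (or rather, a place `P v` of the function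
field of the universal covering above it), at which all regular functions `f` on `U` are finite, and
the value of `f` is integral for almost all `v`. -/
structure AdelicPoint [NumberField K] (C : Set (ValuationSubring F)) (s : GalSection K F M B) where
  /-- the points -/
  P : ∀ v : HeightOneSpectrum (𝓞 K), Plc K M (AlgebraicClosure (v.adicCompletion K))
  compatible : ∀ v, Compatible s (v.adicCompletion K) (P v)
  mem : ∀ f ∈ regular C, ∀ v, algebraMap F M f ∈ (P v).W
  integral : ∀ f ∈ regular C, ∀ᶠ v in Filter.cofinite, ∀ x : v.adicCompletion K,
    (P v).val (algebraMap F M f) (algebraMap _ _ x) → Valued.v x ≤ 1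

/-- The rank of the group of units that contains the values of the `y i`, which are fixed by the
automorphisms `s g` with `g` in the absolute Galois group of `E`, is at most `r`. Either it is the
group of the units of `E`, and its rank is less by one than the number of the archimedean places of
`E`. Or `E₀` is a subfield of `E` and `τ` an automorphism over `E₀` that maps `E` to itself, such that
the products of the `y i` and their conjugates under `s τ` are constants; then it is the group of
the units of `E` whose product with their conjugate under `τ` is one, up to torsion and constants,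
and its rank is at most the difference between the numbers of the archimedean places of `E` and
of `E₀`. -/
def RankAtMost (s : GalSection K F M B) (E : IntermediateField K B) (y : Fin n → M) (r : ℕ) :
    Prop :=
  Nat.card (NumberField.InfinitePlace E) ≤ r + 1 ∨
    ∃ (E₀ : IntermediateField K B) (τ : B ≃ₐ[K] B), E₀ ≤ E ∧ τ ∈ E₀.fixingSubgroup ∧
      (∀ z ∈ E, τ z ∈ E) ∧ (∀ i, ∃ c : B, y i * s.s τ (y i) = s.j c) ∧
      Nat.card (NumberField.InfinitePlace E) ≤ Nat.card (NumberField.InfinitePlace E₀) + r

/-- The `y i` are units on the universal covering of the curve, fixed by all `s g` with `g` in the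
absolute Galois group of `E`. -/
def AreUnitsFixedOver (C : Set (ValuationSubring F)) (s : GalSection K F M B)
    (E : IntermediateField K B) (y : Fin n → M) : Prop :=
  ∀ i, IsUnitOver C (y i) ∧ ∀ g ∈ E.fixingSubgroup, s.s g (y i) = y i

/-- There are more units `y i` than the rank of the group of units allows: the rank is zero, and some
`y i` is not constant, or the rank is at most one, and two of the `y i` are multiplicatively
independent modulo constants. -/
def MoreThanRank (s : GalSection K F M B) (E : IntermediateField K B) (y : Fin n → M) : Prop :=
  (RankAtMost s E y 0 ∧ ∃ i, Transcendental K (y i)) ∨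
    (RankAtMost s E y 1 ∧ TwoIndependent K y)

/-- The adelic point lies on a finite subscheme of the curve: a regular function that is not zero
vanishes at all of its components. -/
def OnFiniteSubscheme [NumberField K] {C : Set (ValuationSubring F)} {s : GalSection K F M B}
    (pts : AdelicPoint C s) : Prop :=
  ∃ f ∈ regular C, f ≠ 0 ∧ ∀ v, (pts.P v).val (algebraMap F M f) 0

/-- Each function in `F` has only finitely many values at the points of `s` over the completions, and
these are algebraic over `K`. -/
def FinitelyManyValues [NumberField K] {C : Set (ValuationSubring F)} {s : GalSection K F M B}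
    (pts : AdelicPoint C s) : Prop :=
  ∀ f : F, ∃ q : K[X], q ≠ 0 ∧ ∀ v (x : AlgebraicClosure (v.adicCompletion K)),
    (pts.P v).val (algebraMap F M f) x → aeval x q = 0

/-- the ring generated by the constants and all units on the universal covering of the curve -/
def unitRing (C : Set (ValuationSubring F)) (s : GalSection K F M B) : Subring M :=
  Subring.closure (Set.range s.j ∪ {y | IsUnitOver C y})

/-- The ring homomorphism `θ` is a point of the spectrum of the ring generated by the constants and
all units on the universal covering of the curve, with values in the algebraic closure `B` of `K`,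
from which the section arises as far as this ring is concerned. -/
structure IsPointOf [NumberField K] [Algebra K F] {C : Set (ValuationSubring F)}
    {s : GalSection K F M B} (pts : AdelicPoint C s) (θ : unitRing C s →+* B) : Prop where
  /-- it is the identity on the constants -/
  const : ∀ b : B, ∃ h : s.j b ∈ unitRing C s, θ ⟨s.j b, h⟩ = b
  /-- it is equivariant for the section -/
  equivariant : ∀ (g : B ≃ₐ[K] B) (r : unitRing C s), ∃ h : s.s g (r : M) ∈ unitRing C s,
    θ ⟨s.s g (r : M), h⟩ = g (θ r)
  /-- it gives the values at all points of the section over the completions -/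
  value : ∀ v (r : unitRing C s), (pts.P v).val ((r : M) - s.j (θ r)) 0
  /-- the functions on the curve itself have values in `K`, the same over all completions -/
  rational : ∀ (f : F) (h : algebraMap F M f ∈ unitRing C s), ∃ ξ : K,
    θ ⟨algebraMap F M f, h⟩ = algebraMap K B ξ ∧
      ∀ v, (pts.P v).val (algebraMap F M f) (algebraMap K _ ξ)
  /-- the Kummer classes of all units are those of their values -/
  kummer : ∀ y : M, IsUnitOver C y → ∃ h : y ∈ unitRing C s, ∀ N : ℕ, 0 < N → ∃ w : M,
    w ^ N = y / s.j (θ ⟨y, h⟩) ∧ ∀ g : B ≃ₐ[K] B, s.s g y = y → s.s g w = w

end defs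

/-- Let `U` be a smooth curve over a number field `K`, and `s` a section of `π₁(U) → Gal(B/K)` that
is given by an adelic point of `U`. Suppose that the adelic point lies on a finite subscheme of `U`,
or that there are a finite extension `E` of `K` and units `y i` on the universal covering of `U`, fixed
by the images of the automorphisms over `E`, such that the rank of the group of units that contains
the values of the `y i` is zero (and some `y i` is not constant), or at most one (and two of the
`y i` are multiplicatively independent modulo constants). Then the section `s` is geometric on the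
ring generated by all units on the étale coverings of `U`: it arises from an equivariant
homomorphism `θ` from this ring to `B`, which gives the values of the elements of the ring at all
points of `s` over the completions; and each function in `F` has only finitely many values at these
points, which are algebraic over `K`. -/
theorem result (K F Ω B : Type) [Field K] [NumberField K] [Field F] [Field Ω] [Field B]
    [Algebra K F] [Algebra F Ω] [Algebra K Ω] [IsScalarTower K F Ω] [IsAlgClosure F Ω]
    [Algebra K B] [IsAlgClosure K B] (hF : OneVariable K F)
    (C : Set (ValuationSubring F)) (hC : ∀ O ∈ C, ∀ c : K, algebraMap K F c ∈ O)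
    (s : GalSection K F (unramified F Ω C) B) (pts : AdelicPoint C s)
    (h : OnFiniteSubscheme pts ∨ ∃ (E : IntermediateField K B) (n : ℕ)
      (y : Fin n → unramified F Ω C), FiniteDimensional K E ∧ AreUnitsFixedOver C s E y ∧
        MoreThanRank s E y) :
    ∃ θ : unitRing C s →+* B, IsPointOf pts θ ∧ FinitelyManyValues pts := by
  have hΩ1 : IsAlgClosed Ω := IsAlgClosure.isAlgClosed F
  have hΩ2 : Algebra.IsAlgebraic F Ω := IsAlgClosure.isAlgebraic
  have h5 : Algebra.IsAlgebraic F (unramified F Ω C) :=
    Algebra.IsAlgebraic.tower_bot (K := F) (L := unramified F Ω C) (A := Ω)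
  have hroot : ∀ y : unramified F Ω C, IsUnitOver C y → ∀ N : ℕ, 0 < N →
      ∃ w : unramified F Ω C, w ≠ 0 ∧ w ^ N = y := by
    intro y hy N hN
    have hcov : ∀ z : unramified F Ω C, IsIntegralOver C z → ∀ W : ValuationSubring Ω,
        W.comap (algebraMap F Ω) ∈ C → (z : Ω) ∈ W := by
      rintro z ⟨q, hq, hz⟩ W hW
      refine Pool.Agent.H886.SB.mem_of_integral ((algebraMap F Ω).comp (regular C).subtype) W q hq
        (fun k => (q.coeff k).2 _ hW) ?_
      have h3 := Polynomial.hom_eval₂ q ((algebraMap F (unramified F Ω C)).comp
        (regular C).subtype) (algebraMap (unramified F Ω C) Ω) z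
      rw [hz, map_zero] at h3
      exact h3.symm
    refine Pool.Agent.H886.SB.root_cov C hC y hy.1 (fun W hW => ?_) hN
    exact ⟨hcov _ hy.2.1 W hW, hcov _ hy.2.2 W hW⟩
  have had : Pool.Agent.H886.SB.AdPt (regular C) s pts.P := ⟨pts.compatible, pts.mem, pts.integral⟩
  have hne : Nonempty (HeightOneSpectrum (𝓞 K)) := Pool.Agent.H886.SB.nonempty_places K
  -- a function with finitely many values
  obtain ⟨y0, hy0, S, hS⟩ : ∃ y0 : unramified F Ω C, Transcendental K y0 ∧ ∃ S : Finset B,
      ∀ v, ∃ β ∈ S, (pts.P v).val (y0 - s.j β) 0 := by
    rcases h with ⟨f, -, hf0, hf⟩ | ⟨E, n, y, hE, hy, hm⟩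
    · refine ⟨algebraMap F _ f, ?_, {0}, fun v => ⟨0, Finset.mem_singleton_self _, ?_⟩⟩
      · exact Pool.Agent.H886.SB.transcendental_of_vanish s
          (fun v : HeightOneSpectrum (𝓞 K) => AlgebraicClosure (v.adicCompletion K)) pts.P
          ((_root_.map_ne_zero _).2 hf0) hf
      · rw [map_zero, sub_zero]
        exact hf v
    · have h1 : ∃ i, Transcendental K (y i) := by
        rcases hm with ⟨-, h⟩ | ⟨-, i, j, h⟩
        · exact h
        · refine ⟨i, ?_⟩
          have := h 1 0 (Or.inl one_ne_zero)
          simpa using this
      obtain ⟨i, hi⟩ := h1
      have h2 : ∃ r, Pool.Agent.H886.SB.RankLe s E y r ∧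
          (r = 0 ∨ (r = 1 ∧ Pool.Agent.H886.SB.TwoInd K y)) := by
        rcases hm with ⟨h, -⟩ | ⟨h, h'⟩
        · exact ⟨0, h, Or.inl rfl⟩
        · exact ⟨1, h, Or.inr ⟨rfl, h'⟩⟩
      obtain ⟨r, hr, h01⟩ := h2
      obtain ⟨η, -, hη, -⟩ := Pool.Agent.H886.SB.uni_main had hF E y (fun i => (hy i).1.1)
        (fun i => (hy i).1.2.1) (fun i => (hy i).1.2.2) (fun i => (hy i).2)
        (fun i => hroot _ (hy i).1) r hr h01
      refine ⟨y i, hi, {(η i : B)}, fun v => ⟨_, Finset.mem_singleton_self _, ?_⟩⟩
      have h3 := hη v 1 i
      rw [map_one] at h3
      exact h3
  obtain ⟨θ, h1, h2, h3, h4, h6⟩ := Pool.Agent.H886.SB.unit_point had hF hy0 S hS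
    {y | IsUnitOver C y} (fun y hy => hy.1) (fun y hy => hy.2.1) (fun y hy => hy.2.2)
    (fun y hy => hroot y hy) (by
      rintro y ⟨hy0, hy1, hy2⟩ g
      refine ⟨(_root_.map_ne_zero _).2 hy0, ?_, ?_⟩
      · obtain ⟨q, hq, hz⟩ := hy1
        exact ⟨q, hq, Pool.Agent.H886.SB.root_conj (s.s g) hz⟩
      · obtain ⟨q, hq, hz⟩ := hy2
        refine ⟨q, hq, ?_⟩
        rw [← map_inv₀]
        exact Pool.Agent.H886.SB.root_conj (s.s g) hz)
  refine ⟨θ, ⟨h1, h2, h3, h4, h6⟩, fun f => ?_⟩
  exact Pool.Agent.H886.SB.finite_poly s hF hy0
    (fun v : HeightOneSpectrum (𝓞 K) => AlgebraicClosure (v.adicCompletion K)) pts.P S hS f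

end Pool.Agent.Results.MP_2f3286_ag.UnitsOnCoverings
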